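import Pool.Agent.Lib.MP_bbe012_lc.PN.Defs

/-!
# Almost all supports: integer points and lattices
-/

namespace Pool.Agent.Lib.MP_bbe012_lc.PL

open MvPolynomial PP PG PM PN

/-- The rational points `θ` over which `f` does not halt on all the expressions of size `T ^ A`. -/
def Undecided {s μ : ℕ} (F : Fin μ → Sup s) (f : PCode × List PeriodCode →. Bool) (A T : ℕ) : Set (Fin s → ℚ) :=
  {θ | ∃ x, InN F A T θ x ∧ ¬ (f x).Dom}

/-- `θ` is in the lattice `∏ (1 / D_i) ℤ`. -/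
def InLattice {s : ℕ} (D : Fin s → ℕ) (θ : Fin s → ℚ) : Prop := ∀ i, ∃ k : ℤ, (D i : ℚ) * θ i = k

/-- All the polynomials `g_j(θ, x)` of the families are homogeneous in `θ`: `g_j(t θ, x) = t ^ e_j g_j(θ, x)`. -/
def Homog {s μ : ℕ} (F : Fin μ → Sup s) : Prop :=
  ∀ k j, ∃ e : ℕ, ∀ (t : ℚ) (θ : Fin s → ℚ), spz ((F k).g j) (fun i => t * θ i) = C (t ^ e) * spz ((F k).g j) θ

end Pool.Agent.Lib.MP_bbe012_lc.PL
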