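import Pool.Agent.Lib.MP_bbe012_lc.PG.A5

/-!
# Lattices: zeros in a small box
-/

namespace Pool.Agent.Lib.MP_bbe012_lc.PL

open Finset PG

/-- `σ` is a point of the translate `a + ∏ h_i ℤ` of a lattice. -/
def InC {ι : Type} (a h σ : ι → ℚ) : Prop := ∀ i, ∃ k : ℤ, σ i = a i + k * h i

private theorem l0_sep (F : Finset ℝ) (y w δ : ℝ) (hδ : 0 < δ) (hw : 0 ≤ w)
    (h1 : ∀ x ∈ F, y ≤ x ∧ x ≤ y + w) (h2 : ∀ x ∈ F, ∀ x' ∈ F, x ≠ x' → δ ≤ |x - x'|) :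
    (F.card : ℝ) ≤ 1 + w / δ := by
  have hcard : F.card ≤ ((Finset.range (⌊w / δ⌋₊ + 1)).card) := by
    refine Finset.card_le_card_of_injOn (fun x => ⌊(x - y) / δ⌋₊) ?_ ?_
    · intro x hx
      have hx' := h1 x hx
      rw [Finset.coe_range, Set.mem_Iio]
      refine Nat.lt_succ_of_le (Nat.floor_mono ?_)
      exact div_le_div_of_nonneg_right (by linarith [hx'.2]) hδ.le
    · intro x hx x' hx' he
      by_contra hne
      have hd := h2 x hx x' hx' hne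
      have e1 : ⌊(x - y) / δ⌋₊ = ⌊(x' - y) / δ⌋₊ := he
      have a1 : 0 ≤ (x - y) / δ := div_nonneg (by linarith [(h1 x hx).1]) hδ.le
      have a2 : 0 ≤ (x' - y) / δ := div_nonneg (by linarith [(h1 x' hx').1]) hδ.le
      have b1 := Nat.floor_le a1
      have b2 := Nat.lt_floor_add_one ((x - y) / δ)
      have b3 := Nat.floor_le a2
      have b4 := Nat.lt_floor_add_one ((x' - y) / δ)
      rw [e1] at b1 b2
      have c1 : |(x - y) / δ - (x' - y) / δ| < 1 := by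
        rw [abs_lt]
        constructor <;> linarith
      have c2 : (x - y) / δ - (x' - y) / δ = (x - x') / δ := by ring
      rw [c2, abs_div, abs_of_pos hδ, div_lt_one hδ] at c1
      linarith
  rw [Finset.card_range] at hcard
  have h3 : ((⌊w / δ⌋₊ + 1 : ℕ) : ℝ) ≤ w / δ + 1 := by
    push_cast
    linarith [Nat.floor_le (div_nonneg hw hδ.le)]
  have h4 : (F.card : ℝ) ≤ ((⌊w / δ⌋₊ + 1 : ℕ) : ℝ) := by exact_mod_cast hcard
  linarith

/-- Points of a translate of `h ℤ` in an interval. -/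
theorem icount_coset {T : ℕ} {a h : ℚ} (hh : 1 ≤ 2 * (T : ℚ) * h) (x₀ ℓ : ℝ) (hℓ : 0 < ℓ) (X : Finset ℚ)
    (hX : ∀ x ∈ X, ∃ k : ℤ, x = a + k * h) :
    ICount (X.image fun x : ℚ => ((x : ℝ) - x₀) / ℓ) (ℓ * (2 * (T : ℝ))) := by
  intro y w hw
  have hT0 : (0 : ℝ) < T := by
    rcases Nat.eq_zero_or_pos T with rfl | hT
    · norm_num at hh
    · exact_mod_cast hT
  have hh' : (1 : ℝ) ≤ 2 * (T : ℝ) * (h : ℝ) := by exact_mod_cast hh
  have hδ : (0 : ℝ) < 1 / (ℓ * (2 * (T : ℝ))) := by positivity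
  have h1 := l0_sep ((X.image fun x : ℚ => ((x : ℝ) - x₀) / ℓ).filter fun x => y ≤ x ∧ x ≤ y + w)
    y w (1 / (ℓ * (2 * (T : ℝ)))) hδ hw (fun x hx => (Finset.mem_filter.1 hx).2) (by
      intro x hx x' hx' hne
      obtain ⟨b, hb, rfl⟩ := Finset.mem_image.1 (Finset.mem_filter.1 hx).1
      obtain ⟨b', hb', rfl⟩ := Finset.mem_image.1 (Finset.mem_filter.1 hx').1
      obtain ⟨k, hk⟩ := hX b hb
      obtain ⟨k', hk'⟩ := hX b' hb'
      have hkk : k ≠ k' := by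
        rintro rfl
        apply hne
        rw [hk, hk']
      have h2 : (1 : ℝ) ≤ |(k : ℝ) - k'| := by
        have h3 : (1 : ℤ) ≤ |k - k'| := Int.one_le_abs (sub_ne_zero.2 hkk)
        have h4 : ((1 : ℤ) : ℝ) ≤ ((|k - k'| : ℤ) : ℝ) := by exact_mod_cast h3
        rw [Int.cast_abs] at h4
        push_cast at h4
        exact h4
      have h5 : ((b : ℝ) - x₀) / ℓ - ((b' : ℝ) - x₀) / ℓ = ((k : ℝ) - k') * h / ℓ := by
        rw [hk, hk']
        push_cast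
        ring
      have hhp : (0 : ℝ) < (h : ℝ) := by
        by_contra hcon
        push Not at hcon
        nlinarith
      rw [h5, abs_div, abs_of_pos hℓ, abs_mul, abs_of_pos hhp, div_le_div_iff₀ (by positivity) hℓ, one_mul]
      calc ℓ = ℓ * (1 * 1) := by ring
        _ ≤ ℓ * (|(k : ℝ) - k'| * (2 * (T : ℝ) * h)) := by
            refine mul_le_mul_of_nonneg_left ?_ hℓ.le
            exact mul_le_mul h2 hh' (by norm_num) (abs_nonneg _)
        _ = |(k : ℝ) - k'| * h * (ℓ * (2 * (T : ℝ))) := by ring)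
  refine h1.trans (le_of_eq ?_)
  rw [div_div_eq_mul_div, div_one]

private theorem l0_sum {ι : Type} [Fintype ι] [DecidableEq ι] (κ : ℕ) (F : Finset (ι → ℕ))
    (hF : ∀ b, b ∈ F ↔ dg b < κ + 1) (g : (ι → ℕ) → ℝ) :
    ∑ b : ι → Fin (κ + 1), (if dg (fun i => (b i : ℕ)) < κ + 1 then g (fun i => (b i : ℕ)) else 0) =
      ∑ b ∈ F, g b := by
  classical
  have himg : F = ((univ : Finset (ι → Fin (κ + 1))).filter
      (fun b => dg (fun i => (b i : ℕ)) < κ + 1)).image (fun b i => (b i : ℕ)) := by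
    ext b
    rw [hF, mem_image]
    constructor
    · intro hb
      have hle : ∀ i, b i < κ + 1 := fun i =>
        lt_of_le_of_lt (single_le_sum (f := b) (fun j _ => Nat.zero_le _) (mem_univ i)) hb
      refine ⟨fun i => ⟨b i, hle i⟩, ?_, rfl⟩
      rw [mem_filter]
      exact ⟨mem_univ _, hb⟩
    · rintro ⟨b', hb', rfl⟩
      exact (mem_filter.1 hb').2
  rw [himg, sum_image, sum_filter]
  intro x _ y _ hxy
  funext i
  exact Fin.ext (congrFun hxy i)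

/-- As `zeros_box` (PG/A5.lean), for the points of a translate of a lattice. -/
theorem zeros_boxL (ι : Type) [Fintype ι] [DecidableEq ι] (r B c : ℝ) (κ : ℕ) (hr : 0 < r) (hB : 0 ≤ B) (hc : 0 < c) :
    ∃ C γ ℓ₀ : ℝ, 1 ≤ C ∧ 0 < γ ∧ γ ≤ 1 ∧ 0 < ℓ₀ ∧
      ∀ (θ₀ : ι → ℝ) (N : (ι → ℝ) → ℝ) (ν : (ι → ℕ) → ℝ), Exp r B θ₀ N ν → (∃ b, dg b ≤ κ ∧ c ≤ |ν b|) →
      ∀ ℓ : ℝ, 0 < ℓ → ℓ ≤ ℓ₀ → ∀ (T : ℕ) (a₀ h₀ : ι → ℚ), (∀ i, 1 ≤ 2 * (T : ℚ) * h₀ i) → ∀ (Z : Finset (ι → ℚ)),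
        (∀ σ ∈ Z, InC a₀ h₀ σ ∧ (∀ i, |(σ i : ℝ) - θ₀ i| ≤ ℓ) ∧ N (fun i => (σ i : ℝ)) = 0) →
        (Z.card : ℝ) ≤ C * (1 + ℓ * (2 * (T : ℝ))) ^ Fintype.card ι * ((1 + ℓ * (2 * (T : ℝ)))⁻¹ + ℓ ^ γ) := by
  obtain ⟨C, γ, hC, hγ, hγ1, hcount⟩ := count_multi' ι κ
  set C' : ℝ := B * 2 ^ Fintype.card ι * (2 / r) ^ (κ + 1) / c with hC'
  have hC'0 : 0 ≤ C' := by positivity
  refine ⟨C * (C' + 1), γ, min (min 1 (r / 4)) (1 / (C' + 1)), ?_, hγ, hγ1, by positivity, ?_⟩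
  · nlinarith
  intro θ₀ N ν hexp hb ℓ hℓ hℓ₀ T a₀ h₀ hh₀ Z hZ
  obtain ⟨b0, hb0, hcb0⟩ := hb
  have hl1 : ℓ ≤ 1 := hℓ₀.trans ((min_le_left _ _).trans (min_le_left _ _))
  have hl2 : 4 * ℓ ≤ r := by
    have := hℓ₀.trans ((min_le_left _ _).trans (min_le_right _ _))
    linarith
  have hl3 : (C' + 1) * ℓ ≤ 1 := by
    have := hℓ₀.trans (min_le_right _ _)
    rw [le_div_iff₀ (by linarith)] at this
    linarith
  set F : Finset (ι → ℕ) := (finite_dg_lt (ι := ι) (κ + 1)).toFinset with hFd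
  have hF : ∀ b, b ∈ F ↔ dg b < κ + 1 := by
    intro b
    rw [hFd, Set.Finite.mem_toFinset]
    exact Iff.rfl
  obtain ⟨bm, hbm, hmax⟩ := F.exists_max_image (fun b => |ν b| * ℓ ^ dg b)
    ⟨b0, (hF b0).2 (by omega)⟩
  set μ : ℝ := |ν bm| * ℓ ^ dg bm with hμ
  have hμ1 : c * ℓ ^ κ ≤ μ := by
    refine le_trans ?_ (hmax b0 ((hF b0).2 (by omega)))
    exact mul_le_mul hcb0 (pow_le_pow_of_le_one hℓ.le hl1 hb0) (by positivity) (abs_nonneg _)
  have hμ0 : 0 < μ := lt_of_lt_of_le (by positivity) hμ1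
  set a : (ι → Fin (κ + 1)) → ℝ := fun b =>
    if dg (fun i => (b i : ℕ)) < κ + 1 then
      ν (fun i => (b i : ℕ)) * ℓ ^ dg (fun i => (b i : ℕ)) / μ else 0 with ha
  have hbml : ∀ i, bm i < κ + 1 := fun i =>
    lt_of_le_of_lt (single_le_sum (f := bm) (fun j _ => Nat.zero_le _) (mem_univ i))
      ((hF bm).1 hbm)
  have ha1 : ∃ b, (1 : ℝ) ≤ |a b| := by
    refine ⟨fun i => ⟨bm i, hbml i⟩, ?_⟩
    have h1 : a (fun i => ⟨bm i, hbml i⟩) = ν bm * ℓ ^ dg bm / μ := by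
      rw [ha]
      simp only
      rw [if_pos]
      exact (hF bm).1 hbm
    rw [h1, abs_div, abs_mul, abs_of_pos hμ0, abs_of_pos (pow_pos hℓ _), ← hμ, div_self hμ0.ne']
  set ε : ℝ := (C' + 1) * ℓ with hε
  have hε0 : 0 < ε := by positivity
  set L : ℝ := ℓ * (2 * (T : ℝ)) with hL
  have hL0 : 0 ≤ L := by positivity
  set X : ι → Finset ℝ := fun i =>
    (Z.image (fun σ => σ i)).image (fun q : ℚ => ((q : ℝ) - θ₀ i) / ℓ) with hX
  have hXc : ∀ i, ICount (X i) L := by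
    intro i
    have h := icount_coset (a := a₀ i) (hh₀ i) (θ₀ i) ℓ hℓ (Z.image (fun σ => σ i)) (by
      intro q hq
      obtain ⟨σ, hσ, rfl⟩ := mem_image.1 hq
      exact (hZ σ hσ).1 i)
    rw [hX, hL]
    exact h
  have hu1 : ∀ σ ∈ Z, ∀ i, |((σ i : ℝ) - θ₀ i) / ℓ| ≤ 1 := by
    intro σ hσ i
    rw [abs_div, abs_of_pos hℓ, div_le_one hℓ]
    exact (hZ σ hσ).2.1 i
  have hX1 : ∀ i, ∀ x ∈ X i, |x| ≤ 1 := by
    intro i x hx
    obtain ⟨q, hq, rfl⟩ := mem_image.1 hx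
    obtain ⟨σ, hσ, rfl⟩ := mem_image.1 hq
    exact hu1 σ hσ i
  have hmain := hcount a 1 ε L X one_pos hε0 hl3 hL0 hXc hX1 ha1
  rw [div_one] at hmain
  have hcard : Z.card ≤ ((Fintype.piFinset X).filter fun x =>
      |∑ b, a b * ∏ i, x i ^ (b i : ℕ)| ≤ ε).card := by
    refine card_le_card_of_injOn (fun σ i => ((σ i : ℝ) - θ₀ i) / ℓ) ?_ ?_
    · intro σ hσ
      have hσ' : σ ∈ Z := hσ
      rw [mem_coe, mem_filter, Fintype.mem_piFinset]
      refine ⟨fun i => mem_image_of_mem _ (mem_image_of_mem _ hσ'), ?_⟩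
      set u : ι → ℝ := fun i => ((σ i : ℝ) - θ₀ i) / ℓ with hu
      have h2 := hexp.approx hr hB hℓ hl2 (u := u) (hu1 σ hσ') (κ + 1) F
        (fun b hb => (hF b).2 hb)
      have h3 : (θ₀ + fun i => ℓ * u i) = fun i => (σ i : ℝ) := by
        funext i
        rw [Pi.add_apply, hu]
        field_simp
        ring
      rw [h3, (hZ σ hσ').2.2, zero_sub, abs_neg] at h2
      have h4 : ∑ b, a b * ∏ i, u i ^ (b i : ℕ) =
          (∑ b ∈ F, ν b * ℓ ^ dg b * mon u b) / μ := by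
        rw [← l0_sum κ F hF (fun b => ν b * ℓ ^ dg b * mon u b), sum_div]
        refine sum_congr rfl fun b _ => ?_
        rw [ha]
        simp only
        split_ifs
        · unfold mon
          ring
        · rw [zero_mul, zero_div]
      show |∑ b, a b * ∏ i, u i ^ (b i : ℕ)| ≤ ε
      rw [h4, abs_div, abs_of_pos hμ0, div_le_iff₀ hμ0]
      refine h2.trans ?_
      have h5 : ε * (c * ℓ ^ κ) ≤ ε * μ := mul_le_mul_of_nonneg_left hμ1 hε0.le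
      refine le_trans ?_ h5
      have h6 : B * 2 ^ Fintype.card ι * (2 * ℓ / r) ^ (κ + 1) = C' * ℓ * (c * ℓ ^ κ) := by
        have h7 : (2 * ℓ / r) ^ (κ + 1) = (2 / r) ^ (κ + 1) * (ℓ ^ κ * ℓ) := by
          rw [← pow_succ, ← mul_pow]
          congr 1
          ring
        rw [h7, hC']
        field_simp
      rw [h6, hε]
      have h8 : 0 ≤ ℓ * (c * ℓ ^ κ) := by positivity
      nlinarith
    · intro σ _ σ' _ h
      funext i
      have h1 := congrFun h i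
      simp only at h1
      rw [div_left_inj' hℓ.ne'] at h1
      have h2 : (σ i : ℝ) = σ' i := by linarith
      exact_mod_cast h2
  have hcard' : (Z.card : ℝ) ≤ C * (1 + L) ^ Fintype.card ι * ((1 + L)⁻¹ + ε ^ γ) :=
    le_trans (by exact_mod_cast hcard) hmain
  refine hcard'.trans ?_
  have hεγ : ε ^ γ ≤ (C' + 1) * ℓ ^ γ := by
    rw [hε, Real.mul_rpow (by linarith) hℓ.le]
    refine mul_le_mul_of_nonneg_right ?_ (Real.rpow_nonneg hℓ.le _)
    calc (C' + 1) ^ γ ≤ (C' + 1) ^ (1 : ℝ) :=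
          Real.rpow_le_rpow_of_exponent_le (by linarith) hγ1
      _ = C' + 1 := Real.rpow_one _
  have hLi : 0 ≤ (1 + L)⁻¹ := by positivity
  have hlγ : 0 ≤ ℓ ^ γ := Real.rpow_nonneg hℓ.le _
  have h9 : (1 + L)⁻¹ + ε ^ γ ≤ (C' + 1) * ((1 + L)⁻¹ + ℓ ^ γ) := by
    nlinarith
  calc C * (1 + L) ^ Fintype.card ι * ((1 + L)⁻¹ + ε ^ γ)
      ≤ C * (1 + L) ^ Fintype.card ι * ((C' + 1) * ((1 + L)⁻¹ + ℓ ^ γ)) :=
        mul_le_mul_of_nonneg_left h9 (by positivity)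
    _ = C * (C' + 1) * (1 + L) ^ Fintype.card ι * ((1 + L)⁻¹ + ℓ ^ γ) := by ring

end Pool.Agent.Lib.MP_bbe012_lc.PL
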