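import Pool.Agent.Lib.MP_bbe012_lc.PG.A9
import Pool.Agent.Lib.MP_bbe012_lc.PM.Ct1
import Pool.Agent.Lib.MP_bbe012_lc.PL.L0

/-!
# Lattices: the auxiliary vector of polynomials
-/

namespace Pool.Agent.Lib.MP_bbe012_lc.PL

open Finset PG PM

/-- The arithmetic of the exponents. -/
theorem arith_stageL (K q A κ M : ℕ) (hK : 1 ≤ K) (hq : 1 ≤ q) (hM : 2 ^ (K + 2) * K * q ≤ M) (h : ℕ)
    (hh : h = 2 ^ (K + 3) * (A * q + κ + 1)) :
    M * (A * ((2 * h + 1) ^ K * q) + q * (K * h * (2 * h + 1) ^ K)) + 1 ≤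
      (M - 1) * (q * (K * h * (2 * h + 1) ^ K) + (h + 1 - κ) * (h + 1) ^ K) := by
  have hD : 0 < 2 ^ K := by positivity
  have hP : (2 * h + 1) ^ K ≤ 2 ^ K * (h + 1) ^ K := by
    rw [← mul_pow]
    exact Nat.pow_le_pow_left (by omega) K
  have hP1 : 1 ≤ (2 * h + 1) ^ K := Nat.one_le_pow _ _ (by omega)
  have hh' : h = 8 * 2 ^ K * (A * q + κ + 1) := by
    rw [hh, pow_add]
    ring
  have hM' : 4 * 2 ^ K * K * q ≤ M := by
    refine le_trans (le_of_eq ?_) hM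
    rw [pow_add]
    ring
  generalize (2 * h + 1) ^ K = P at *
  generalize (h + 1) ^ K = E at *
  generalize 2 ^ K = D at *
  have hκh : κ ≤ h := by
    rw [hh']
    nlinarith [Nat.zero_le (A * q)]
  obtain ⟨h1, hh1⟩ : ∃ h1, h + 1 = h1 + κ := ⟨h + 1 - κ, by omega⟩
  have e1 : h + 1 - κ = h1 := by omega
  rw [e1]
  have hKq : 1 ≤ K * q := Nat.mul_pos hK hq
  have hDM : 4 * D ≤ M := by
    refine le_trans ?_ hM'
    nlinarith
  have hM1 : 4 ≤ M := le_trans (by omega) hDM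
  have k1 : 8 * D * (A * q) + 2 * h + 8 ≤ 4 * h1 := by
    have : 8 * D * (A * q) + 4 * κ + 4 ≤ 2 * h := by
      rw [hh']
      nlinarith [Nat.zero_le (A * q), Nat.zero_le κ, Nat.zero_le (D * (A * q)), Nat.zero_le (D * κ),
        Nat.mul_le_mul hD (le_refl κ)]
    omega
  obtain ⟨M', rfl⟩ : ∃ M', M = M' + 1 := ⟨M - 1, by omega⟩
  have e2 : M' + 1 - 1 = M' := by omega
  rw [e2]
  have hM2 : M' + 1 ≤ 2 * M' := by omega
  have k2 : 8 * D * ((M' + 1) * (A * q) * P + q * K * h * P + 1) ≤ 8 * D * (M' * h1 * E) := by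
    calc 8 * D * ((M' + 1) * (A * q) * P + q * K * h * P + 1)
        = (M' + 1) * P * (8 * D * (A * q)) + 2 * ((4 * D * K * q) * (h * P)) + 2 * (4 * D) := by ring
      _ ≤ (M' + 1) * P * (8 * D * (A * q)) + 2 * ((M' + 1) * (h * P)) + 8 * ((M' + 1) * P) := by
          refine add_le_add (add_le_add le_rfl (Nat.mul_le_mul_left 2 (Nat.mul_le_mul hM' le_rfl))) ?_
          calc 2 * (4 * D) ≤ 2 * (M' + 1) := Nat.mul_le_mul_left 2 hDM
            _ ≤ 8 * ((M' + 1) * 1) := by omega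
            _ ≤ 8 * ((M' + 1) * P) := Nat.mul_le_mul_left 8 (Nat.mul_le_mul_left _ hP1)
      _ = (M' + 1) * P * (8 * D * (A * q) + 2 * h + 8) := by ring
      _ ≤ (M' + 1) * P * (4 * h1) := Nat.mul_le_mul le_rfl k1
      _ ≤ (2 * M') * P * (4 * h1) := Nat.mul_le_mul (Nat.mul_le_mul hM2 le_rfl) le_rfl
      _ = 8 * (M' * h1) * P := by ring
      _ ≤ 8 * (M' * h1) * (D * E) := Nat.mul_le_mul le_rfl hP
      _ = 8 * D * (M' * h1 * E) := by ring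
  have k3 : (M' + 1) * (A * q) * P + q * K * h * P + 1 ≤ M' * h1 * E :=
    Nat.le_of_mul_le_mul_left k2 (by positivity)
  calc (M' + 1) * (A * (P * q) + q * (K * h * P)) + 1
      = M' * (q * (K * h * P)) + ((M' + 1) * (A * q) * P + q * K * h * P + 1) := by ring
    _ ≤ M' * (q * (K * h * P)) + M' * h1 * E := add_le_add le_rfl k3
    _ = M' * (q * (K * h * P) + h1 * E) := by ring

/-- The lower bound of the determinant at the points of a translate of a lattice: translation, scaling of the columns, and the determinant is an integer. -/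
theorem det_lowerL {ι J : Type} [Fintype ι] [DecidableEq ι] [Fintype J] [DecidableEq J] (d : ℕ)
    (σ : (ι → Fin (d + 1)) × J → ι → ℚ) (c : (ι → Fin (d + 1)) × J → J → ℤ) (a h : ι → ℚ) (hσ : ∀ i, InC a h (σ i))
    (T : ℕ) (hh : ∀ l, 1 ≤ 2 * (T : ℚ) * h l)
    (hdet : (rowMat d (fun i l => (σ i l : ℝ)) (fun i j => (c i j : ℝ))).det ≠ 0) :
    1 ≤ |(rowMat d (fun i l => (σ i l : ℝ)) (fun i j => (c i j : ℝ))).det| *
      (2 * (T : ℝ)) ^ (Fintype.card J * ∑ a : ι → Fin (d + 1), ∑ l, (a l : ℕ)) := by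
  choose k hk using hσ
  have e1 : (fun (i : (ι → Fin (d + 1)) × J) (l : ι) => (σ i l : ℝ) - (a l : ℝ)) =
      fun i l => (h l : ℝ) * (k i l : ℝ) := by
    funext i l
    rw [hk i l]
    push_cast
    ring
  have e2 : rowMat d (fun i l => (h l : ℝ) * (k i l : ℝ)) (fun i j => (c i j : ℝ)) =
      Matrix.of fun i q => (∏ l, (h l : ℝ) ^ (q.1 l : ℕ)) *
        rowMat d (fun i l => (k i l : ℝ)) (fun i j => (c i j : ℝ)) i q := by
    ext i q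
    simp only [rowMat, Matrix.of_apply]
    rw [← mul_assoc, ← Finset.prod_mul_distrib]
    congr 1
    refine Finset.prod_congr rfl fun l _ => ?_
    rw [mul_pow]
  have e3 : rowMat d (fun i l => (k i l : ℝ)) (fun i j => (c i j : ℝ)) =
      (Matrix.of fun i (q : (ι → Fin (d + 1)) × J) => (∏ l, k i l ^ (q.1 l : ℕ)) * c i q.2).map
        (fun x : ℤ => (x : ℝ)) := by
    ext i q
    simp only [rowMat, Matrix.of_apply, Matrix.map_apply]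
    push_cast
    rfl
  have e4 : (rowMat d (fun i l => (σ i l : ℝ)) (fun i j => (c i j : ℝ))).det =
      (∏ q : (ι → Fin (d + 1)) × J, ∏ l, (h l : ℝ) ^ (q.1 l : ℕ)) *
        (((Matrix.of fun i (q : (ι → Fin (d + 1)) × J) => (∏ l, k i l ^ (q.1 l : ℕ)) * c i q.2).det : ℤ) : ℝ) := by
    rw [← det_shift d _ _ (fun l => (a l : ℝ)), e1, e2, Matrix.det_mul_row, e3, Int.cast_det]
  have h1 : (1 : ℝ) ≤ |(((Matrix.of fun i (q : (ι → Fin (d + 1)) × J) =>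
      (∏ l, k i l ^ (q.1 l : ℕ)) * c i q.2).det : ℤ) : ℝ)| := by
    have h2 : (Matrix.of fun i (q : (ι → Fin (d + 1)) × J) => (∏ l, k i l ^ (q.1 l : ℕ)) * c i q.2).det ≠ 0 := by
      intro h0
      apply hdet
      rw [e4, h0, Int.cast_zero, mul_zero]
    have h3 := Int.one_le_abs h2
    rw [← Int.cast_abs]
    exact_mod_cast h3
  have h4 : (1 : ℝ) ≤ (∏ q : (ι → Fin (d + 1)) × J, ∏ l, (h l : ℝ) ^ (q.1 l : ℕ)) *
      (2 * (T : ℝ)) ^ (Fintype.card J * ∑ a : ι → Fin (d + 1), ∑ l, (a l : ℕ)) := by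
    have h5 : (2 * (T : ℝ)) ^ (Fintype.card J * ∑ a : ι → Fin (d + 1), ∑ l, (a l : ℕ)) =
        ∏ q : (ι → Fin (d + 1)) × J, ∏ l, (2 * (T : ℝ)) ^ (q.1 l : ℕ) := by
      have h6 : ∀ q : (ι → Fin (d + 1)) × J, ∏ l, (2 * (T : ℝ)) ^ (q.1 l : ℕ) =
          (2 * (T : ℝ)) ^ (∑ l, (q.1 l : ℕ)) := fun q => Finset.prod_pow_eq_pow_sum _ _ _
      rw [Finset.prod_congr rfl fun q _ => h6 q, Finset.prod_pow_eq_pow_sum]
      congr 1
      rw [Fintype.sum_prod_type, Finset.mul_sum]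
      refine Finset.sum_congr rfl fun a _ => ?_
      change Fintype.card J * ∑ l, (a l : ℕ) = ∑ _y : J, ∑ l, (a l : ℕ)
      rw [Finset.sum_const, Finset.card_univ, smul_eq_mul]
    rw [h5, ← Finset.prod_mul_distrib]
    have h7 : ∀ l, (1 : ℝ) ≤ (h l : ℝ) * (2 * (T : ℝ)) := by
      intro l
      have h8 : (1 : ℝ) ≤ 2 * (T : ℝ) * (h l : ℝ) := by exact_mod_cast hh l
      linarith
    calc (1 : ℝ) = ∏ _q : (ι → Fin (d + 1)) × J, (1 : ℝ) := by rw [Finset.prod_const_one]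
      _ ≤ _ := by
        refine Finset.prod_le_prod (fun _ _ => zero_le_one) fun q _ => ?_
        rw [← Finset.prod_mul_distrib]
        calc (1 : ℝ) = ∏ _l : ι, (1 : ℝ) := by rw [Finset.prod_const_one]
          _ ≤ _ := by
            refine Finset.prod_le_prod (fun _ _ => zero_le_one) fun l _ => ?_
            rw [← mul_pow]
            exact one_le_pow₀ (h7 l)
  have hprod : 0 ≤ ∏ q : (ι → Fin (d + 1)) × J, ∏ l, (h l : ℝ) ^ (q.1 l : ℕ) := by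
    by_contra hcon
    push Not at hcon
    have h9 : 0 ≤ (2 * (T : ℝ)) ^ (Fintype.card J * ∑ a : ι → Fin (d + 1), ∑ l, (a l : ℕ)) := by positivity
    nlinarith
  rw [e4, abs_mul, abs_of_nonneg hprod]
  calc (1 : ℝ) ≤ ((∏ q : (ι → Fin (d + 1)) × J, ∏ l, (h l : ℝ) ^ (q.1 l : ℕ)) *
      (2 * (T : ℝ)) ^ (Fintype.card J * ∑ a : ι → Fin (d + 1), ∑ l, (a l : ℕ))) * 1 := by
        rw [mul_one]
        exact h4
    _ ≤ ((∏ q : (ι → Fin (d + 1)) × J, ∏ l, (h l : ℝ) ^ (q.1 l : ℕ)) *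
      (2 * (T : ℝ)) ^ (Fintype.card J * ∑ a : ι → Fin (d + 1), ∑ l, (a l : ℕ))) *
        |(((Matrix.of fun i (q : (ι → Fin (d + 1)) × J) => (∏ l, k i l ^ (q.1 l : ℕ)) * c i q.2).det : ℤ) : ℝ)| :=
        mul_le_mul_of_nonneg_left h1 (zero_le_one.trans h4)
    _ = _ := by ring

/-- As `stage` and `stageQ` (PG/A10.lean, PM/Ct1.lean), for the points of a translate of a lattice with steps at least `1 / (2 T)`, in a box of side at most `T ^ (-(1 - 1 / M))`. -/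
theorem stageL (ι J : Type) [Fintype ι] [DecidableEq ι] [Nonempty ι] [Fintype J] [DecidableEq J] [Nonempty J]
    (r B c : ℝ) (κ A M : ℕ) (hr : 0 < r) (hB : 0 ≤ B) (hc : 0 < c)
    (hM : 2 ^ (Fintype.card ι + 2) * Fintype.card ι * Fintype.card J ≤ M) :
    ∃ h T₀ : ℕ, ∀ T : ℕ, T₀ ≤ T → ∀ (θ₀ : ι → ℝ) (N : J → (ι → ℝ) → ℝ) (ν : J → (ι → ℕ) → ℝ),
      (∀ j, Exp r B θ₀ (N j) (ν j)) → (∃ j b, dg b ≤ κ ∧ c ≤ |ν j b|) →
      ∀ ℓ : ℝ, 0 < ℓ → ℓ ^ M * (T : ℝ) ^ (M - 1) ≤ 1 → ∀ (a₀ h₀ : ι → ℚ), (∀ i, 1 ≤ 2 * (T : ℚ) * h₀ i) →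
      ∀ (S : Set (ι → ℚ)) (cf : (ι → ℚ) → J → ℤ),
        (∀ σ ∈ S, InC a₀ h₀ σ ∧ (∀ i, |(σ i : ℝ) - θ₀ i| ≤ ℓ) ∧ (∀ j, |cf σ j| ≤ (T : ℤ) ^ A) ∧
          ∑ j, (cf σ j : ℝ) * N j (fun i => (σ i : ℝ)) = 0) →
        ∃ P : J → (ι → Fin (2 * h + 1)) → ℚ, (∀ j a, |P j a| ≤ 1) ∧ (∃ j a, |P j a| = 1) ∧
          ∀ σ ∈ S, ∑ j, (∑ a, P j a * ∏ l, σ l ^ (a l : ℕ)) * (cf σ j : ℚ) = 0 := by
  classical
  obtain ⟨K, hK⟩ : ∃ K, K = Fintype.card ι := ⟨_, rfl⟩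
  obtain ⟨q, hq⟩ : ∃ q, q = Fintype.card J := ⟨_, rfl⟩
  have hK1 : 1 ≤ K := by rw [hK]; exact Fintype.card_pos
  have hq1 : 1 ≤ q := by rw [hq]; exact Fintype.card_pos
  rw [← hK, ← hq] at hM
  have hM2 : 2 ≤ M := by
    refine le_trans ?_ hM
    have h1 : 1 ≤ K * q := Nat.mul_pos hK1 hq1
    have h2 : 4 ≤ 2 ^ (K + 2) := by
      rw [pow_add]
      have : 1 ≤ 2 ^ K := Nat.one_le_two_pow
      omega
    calc 2 ≤ 4 * 1 := by norm_num
      _ ≤ 2 ^ (K + 2) * (K * q) := Nat.mul_le_mul h2 h1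
      _ = 2 ^ (K + 2) * K * q := by ring
  obtain ⟨h, hh⟩ : ∃ h, h = 2 ^ (K + 3) * (A * q + κ + 1) := ⟨_, rfl⟩
  have hκh : κ ≤ h := by
    rw [hh]
    have h1 : 1 ≤ 2 ^ (K + 3) := Nat.one_le_two_pow
    nlinarith [Nat.zero_le (A * q)]
  obtain ⟨C, ℓ₀, hC, hℓ₀, hup⟩ := det_upper ι J r B c κ h hr hB hc hκh
  obtain ⟨G₀, hG₀⟩ : ∃ G₀, G₀ = q * (K * h * (2 * h + 1) ^ K) := ⟨_, rfl⟩
  obtain ⟨T₁, hT₁⟩ := exists_nat_gt ((C * 2 ^ G₀) ^ M)
  obtain ⟨T₂, hT₂⟩ := exists_nat_gt (1 / ℓ₀ ^ 2)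
  refine ⟨h, max 1 (max T₁ T₂), fun T hT θ₀ N ν hE hν ℓ hℓ hℓM a₀ h₀ hh₀ S cf hS => ?_⟩
  have hT1 : 1 ≤ T := (le_max_left _ _).trans hT
  have hTC : (C * 2 ^ G₀) ^ M < T := hT₁.trans_le (by
    exact_mod_cast ((le_max_left _ _).trans (le_max_right _ _)).trans hT)
  have hTℓ : 1 / ℓ₀ ^ 2 < T := hT₂.trans_le (by
    exact_mod_cast ((le_max_right _ _).trans (le_max_right _ _)).trans hT)
  have hTr : (1 : ℝ) ≤ T := by exact_mod_cast hT1
  have hT0 : (0 : ℝ) < T := lt_of_lt_of_le one_pos hTr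
  have hℓT : ℓ ^ 2 * T ≤ 1 := by
    have h1 : (ℓ ^ 2 * T) ^ M ≤ 1 := by
      have h2 : (ℓ ^ M * (T : ℝ) ^ (M - 1)) ^ 2 ≤ 1 := pow_le_one₀ (by positivity) hℓM
      refine le_trans ?_ h2
      rw [mul_pow, mul_pow, ← pow_mul, ← pow_mul, ← pow_mul, mul_comm 2 M]
      refine mul_le_mul_of_nonneg_left (pow_le_pow_right₀ hTr (by omega)) (by positivity)
    exact (pow_le_one_iff_of_nonneg (by positivity) (by omega)).1 h1
  have hℓℓ₀ : ℓ ≤ ℓ₀ := by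
    rw [div_lt_iff₀ (by positivity)] at hTℓ
    have h1 : ℓ ^ 2 * T ≤ ℓ₀ ^ 2 * T := by
      rw [mul_comm (ℓ₀ ^ 2)]
      exact hℓT.trans hTℓ.le
    have h2 : ℓ ^ 2 ≤ ℓ₀ ^ 2 := le_of_mul_le_mul_right h1 hT0
    exact (pow_le_pow_iff_left₀ hℓ.le hℓ₀.le (by norm_num)).1 h2
  let v : S → (ι → Fin (2 * h + 1)) × J → ℝ := fun s aj =>
    (∏ l, ((s : ι → ℚ) l : ℝ) ^ (aj.1 l : ℕ)) * (cf s aj.2 : ℝ)
  rcases exists_normal v with ⟨P, hP1, ⟨⟨b₀, j₀⟩, hP2⟩, hP3⟩ | ⟨f, hf⟩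
  · obtain ⟨Q, hQ1, ⟨⟨a₁, j₁⟩, hQ2⟩, hQ3⟩ := rat_normal (S := S) (n := (ι → Fin (2 * h + 1)) × J)
      (fun σ ja => (∏ l, (σ : ι → ℚ) l ^ (ja.1 l : ℕ)) * (cf σ ja.2 : ℚ)) P
      ⟨(b₀, j₀), fun h0 => by
        rw [h0, abs_zero] at hP2
        exact zero_ne_one hP2⟩
      (fun σ => by
        have h1 := hP3 σ
        rw [← h1]
        refine Finset.sum_congr rfl fun ja _ => ?_
        simp only [v]
        push_cast
        ring)
    refine ⟨fun j a => Q (a, j), fun j a => hQ1 (a, j), ⟨j₁, a₁, hQ2⟩, fun σ hσ => ?_⟩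
    have h1 := hQ3 ⟨σ, hσ⟩
    rw [Fintype.sum_prod_type, Finset.sum_comm] at h1
    rw [← h1]
    refine Finset.sum_congr rfl fun j _ => ?_
    rw [Finset.sum_mul]
    refine Finset.sum_congr rfl fun a _ => ?_
    ring
  · exfalso
    have hmat : rowMat (2 * h) (fun i l => ((f i : ι → ℚ) l : ℝ)) (fun i j => (cf (f i) j : ℝ)) =
        Matrix.of fun i => v (f i) := by
      ext i aj
      simp only [rowMat, Matrix.of_apply, v]
    have hlow := det_lowerL (2 * h) (fun i => (f i : ι → ℚ)) (fun i => cf (f i)) a₀ h₀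
      (fun i => (hS _ (f i).2).1) T hh₀ (by
        rw [hmat]
        exact hf)
    have hupp := hup θ₀ N ν hE hν ℓ hℓ hℓℓ₀ (fun i l => ((f i : ι → ℚ) l : ℝ))
      (fun i j => (cf (f i) j : ℝ)) ((T : ℝ) ^ A) (by positivity)
      (fun i l => (hS _ (f i).2).2.1 l)
      (fun i j => by
        have h1 := (hS _ (f i).2).2.2.1 j
        have h2 : ((|cf (f i) j| : ℤ) : ℝ) ≤ (((T : ℤ) ^ A : ℤ) : ℝ) := by exact_mod_cast h1
        push_cast at h2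
        exact h2)
      (fun i => (hS _ (f i).2).2.2.2)
    have hcard : Fintype.card ((ι → Fin (2 * h + 1)) × J) = (2 * h + 1) ^ K * q := by
      rw [Fintype.card_prod, Fintype.card_fun, Fintype.card_fin, ← hK, ← hq]
    have hdeg : ∑ a : ι → Fin (2 * h + 1), ∑ l, (a l : ℕ) = K * h * (2 * h + 1) ^ K := by
      have h1 := two_mul_sum_deg (ι := ι) (2 * h)
      rw [← hK] at h1
      have h2 : 2 * ∑ a : ι → Fin (2 * h + 1), ∑ l, (a l : ℕ) = 2 * (K * h * (2 * h + 1) ^ K) := by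
        rw [h1]
        ring
      omega
    rw [hdeg, hcard, ← hq, ← hK] at hupp
    rw [hdeg, ← hq] at hlow
    have harith := arith_stageL K q A κ M hK1 hq1 hM h hh
    obtain ⟨Q, hQ⟩ : ∃ Q, Q = (2 * h + 1) ^ K * q := ⟨_, rfl⟩
    obtain ⟨G, hG⟩ : ∃ G, G = q * (K * h * (2 * h + 1) ^ K) + (h + 1 - κ) * (h + 1) ^ K := ⟨_, rfl⟩
    rw [← hQ] at hupp harith
    rw [← hG] at hupp harith
    rw [← hG₀] at hlow harith
    have h1 : 1 ≤ (C * 2 ^ G₀) * (T : ℝ) ^ (A * Q + G₀) * ℓ ^ G := by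
      refine hlow.trans ?_
      calc |(rowMat (2 * h) (fun i l => ((f i : ι → ℚ) l : ℝ)) (fun i j => (cf (f i) j : ℝ))).det| *
            (2 * (T : ℝ)) ^ G₀
          ≤ (C * ((T : ℝ) ^ A) ^ Q * ℓ ^ G) * (2 * (T : ℝ)) ^ G₀ :=
            mul_le_mul_of_nonneg_right hupp (by positivity)
        _ = (C * 2 ^ G₀) * (T : ℝ) ^ (A * Q + G₀) * ℓ ^ G := by
            rw [pow_add, mul_pow, ← pow_mul]
            ring
    have h2 : 1 ≤ (C * 2 ^ G₀) ^ M * (T : ℝ) ^ (M * (A * Q + G₀)) * (ℓ ^ M) ^ G := by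
      have h3 := one_le_pow₀ h1 (n := M)
      refine h3.trans (le_of_eq ?_)
      rw [mul_pow, mul_pow ((C * 2 ^ G₀)), ← pow_mul, ← pow_mul, ← pow_mul, mul_comm G M,
        mul_comm (A * Q + G₀) M]
    have h3 : (ℓ ^ M) ^ G * (T : ℝ) ^ ((M - 1) * G) ≤ 1 := by
      rw [pow_mul (T : ℝ), ← mul_pow]
      exact pow_le_one₀ (by positivity) hℓM
    have h4 : (T : ℝ) ^ ((M - 1) * G) ≤ (C * 2 ^ G₀) ^ M * (T : ℝ) ^ (M * (A * Q + G₀)) := by
      calc (T : ℝ) ^ ((M - 1) * G) = 1 * (T : ℝ) ^ ((M - 1) * G) := (one_mul _).symm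
        _ ≤ (C * 2 ^ G₀) ^ M * (T : ℝ) ^ (M * (A * Q + G₀)) * (ℓ ^ M) ^ G *
              (T : ℝ) ^ ((M - 1) * G) := mul_le_mul_of_nonneg_right h2 (by positivity)
        _ = (C * 2 ^ G₀) ^ M * (T : ℝ) ^ (M * (A * Q + G₀)) *
              ((ℓ ^ M) ^ G * (T : ℝ) ^ ((M - 1) * G)) := by ring
        _ ≤ (C * 2 ^ G₀) ^ M * (T : ℝ) ^ (M * (A * Q + G₀)) * 1 :=
            mul_le_mul_of_nonneg_left h3 (by positivity)
        _ = _ := mul_one _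
    have h5 : (T : ℝ) ^ (M * (A * Q + G₀)) * T ≤ (T : ℝ) ^ ((M - 1) * G) := by
      rw [← pow_succ]
      exact pow_le_pow_right₀ hTr harith
    have h6 : (T : ℝ) ^ (M * (A * Q + G₀)) * T ≤
        (T : ℝ) ^ (M * (A * Q + G₀)) * (C * 2 ^ G₀) ^ M := by
      rw [mul_comm _ ((C * 2 ^ G₀) ^ M)]
      exact h5.trans h4
    exact absurd hTC (le_of_mul_le_mul_left h6 (by positivity)).not_gt

end Pool.Agent.Lib.MP_bbe012_lc.PL
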