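import Pool.Agent.Lib.MP_bbe012_lc.PG.A12
import Pool.Agent.Lib.MP_bbe012_lc.PL.L0
import Pool.Agent.Lib.MP_bbe012_lc.PL.L1

/-!
# Lattices: boxes
-/

namespace Pool.Agent.Lib.MP_bbe012_lc.PL

open Finset MvPolynomial PG PM

/-- The side of the boxes: `T ^ (-(1 - 1 / M))`. -/
noncomputable def ellL (M T : ℕ) : ℝ := (T : ℝ) ^ (-(1 - 1 / (M : ℝ)))

/-- Elementary facts. -/
theorem ellL_spec {M T : ℕ} (hM : 2 ≤ M) (hT : 1 ≤ T) : 0 < ellL M T ∧ ellL M T ≤ (T : ℝ) ^ (-(1 / 2) : ℝ) ∧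
    ellL M T ^ M * (T : ℝ) ^ (M - 1) ≤ 1 ∧ ellL M T * (2 * (T : ℝ)) = 2 * (T : ℝ) ^ (1 / (M : ℝ)) := by
  have hT0 : (0 : ℝ) < (T : ℝ) := by exact_mod_cast hT
  have hT1 : (1 : ℝ) ≤ (T : ℝ) := by exact_mod_cast hT
  have hM0 : (0 : ℝ) < (M : ℝ) := by
    have : 0 < M := by omega
    exact_mod_cast this
  have hM1 : (2 : ℝ) ≤ (M : ℝ) := by exact_mod_cast hM
  have h1M : 1 / (M : ℝ) ≤ 1 / 2 := one_div_le_one_div_of_le (by norm_num) hM1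
  refine ⟨Real.rpow_pos_of_pos hT0 _, ?_, ?_, ?_⟩
  · rw [ellL]
    exact Real.rpow_le_rpow_of_exponent_le hT1 (by linarith)
  · apply le_of_eq
    rw [ellL, ← Real.rpow_natCast ((T : ℝ) ^ (-(1 - 1 / (M : ℝ)))) M, ← Real.rpow_mul hT0.le,
      ← Real.rpow_natCast (T : ℝ) (M - 1), ← Real.rpow_add hT0]
    have h2 : ((M - 1 : ℕ) : ℝ) = (M : ℝ) - 1 := by
      rw [Nat.cast_sub (by omega)]
      push_cast
      ring
    have h3 : -(1 - 1 / (M : ℝ)) * (M : ℝ) + ((M - 1 : ℕ) : ℝ) = 0 := by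
      rw [h2]
      have h4 : 1 / (M : ℝ) * (M : ℝ) = 1 := by
        field_simp
      linear_combination h4
    rw [h3, Real.rpow_zero]
  · have h1 : (T : ℝ) = (T : ℝ) ^ (1 : ℝ) := (Real.rpow_one _).symm
    have h2 : ellL M T * (T : ℝ) = (T : ℝ) ^ (1 / (M : ℝ)) := by
      rw [ellL]
      nth_rewrite 2 [h1]
      rw [← Real.rpow_add hT0]
      congr 1
      ring
    calc ellL M T * (2 * (T : ℝ)) = 2 * (ellL M T * T) := by ring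
      _ = _ := by rw [h2]

/-- As `card_box_le` (PG/A12.lean). -/
theorem card_box_leL {ι : Type} [Fintype ι] [DecidableEq ι] {M T : ℕ} (hM : 2 ≤ M) (hT : 1 ≤ T) (θ₀ : ι → ℝ)
    {a₀ h₀ : ι → ℚ} (hh₀ : ∀ i, 1 ≤ 2 * (T : ℚ) * h₀ i)
    (Z : Finset (ι → ℚ)) (hZ : ∀ σ ∈ Z, InC a₀ h₀ σ ∧ ∀ i, |(σ i : ℝ) - θ₀ i| ≤ ellL M T) :
    (Z.card : ℝ) ≤ 5 ^ Fintype.card ι * (T : ℝ) ^ ((Fintype.card ι : ℝ) / M) := by

  classical
  obtain ⟨hl0, hl1, hl2, hl3⟩ := ellL_spec hM hT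
  have hT0 : (0 : ℝ) < (T : ℝ) := by exact_mod_cast hT
  have hT1 : (1 : ℝ) ≤ (T : ℝ) := by exact_mod_cast hT
  have hone : (1 : ℝ) ≤ (T : ℝ) ^ (1 / (M : ℝ)) := Real.one_le_rpow hT1 (by positivity)
  have hX : ∀ i, ((Z.image fun σ => σ i).card : ℝ) ≤ 5 * (T : ℝ) ^ (1 / (M : ℝ)) := by
    intro i
    have h1 := icount_coset (a := a₀ i) (hh₀ i) (θ₀ i) (ellL M T) hl0 (Z.image fun σ => σ i) (by
      intro a ha
      obtain ⟨σ, hσ, rfl⟩ := Finset.mem_image.1 ha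
      exact (hZ σ hσ).1 i)
    have h2 := h1 (-1) 2 (by norm_num)
    rw [Finset.filter_true_of_mem (by
      intro x hx
      obtain ⟨a, ha, rfl⟩ := Finset.mem_image.1 hx
      obtain ⟨σ, hσ, rfl⟩ := Finset.mem_image.1 ha
      have h3 := (hZ σ hσ).2 i
      rw [abs_le] at h3
      constructor
      · rw [le_div_iff₀ hl0]
        linarith [h3.1]
      · rw [div_le_iff₀ hl0]
        linarith [h3.2]), Finset.card_image_of_injective _ (by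
      intro a b hab
      have h4 : ((a : ℝ) - θ₀ i) / ellL M T = ((b : ℝ) - θ₀ i) / ellL M T := hab
      rw [div_left_inj' hl0.ne'] at h4
      have h5 : (a : ℝ) = (b : ℝ) := by linarith
      exact_mod_cast h5), hl3] at h2
    linarith
  have hsub : Z ⊆ Fintype.piFinset (fun i => Z.image fun σ => σ i) := by
    intro σ hσ
    rw [Fintype.mem_piFinset]
    intro i
    exact Finset.mem_image_of_mem (fun σ : ι → ℚ => σ i) hσ
  calc (Z.card : ℝ) ≤ ((Fintype.piFinset (fun i => Z.image fun σ => σ i)).card : ℝ) := by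
        exact_mod_cast Finset.card_le_card hsub
    _ = ∏ i, ((Z.image fun σ => σ i).card : ℝ) := by
        rw [Fintype.card_piFinset]
        push_cast
        rfl
    _ ≤ ∏ _i : ι, (5 * (T : ℝ) ^ (1 / (M : ℝ))) :=
        Finset.prod_le_prod (fun i _ => Nat.cast_nonneg _) (fun i _ => hX i)
    _ = 5 ^ Fintype.card ι * (T : ℝ) ^ ((Fintype.card ι : ℝ) / M) := by
        rw [Finset.prod_const, Finset.card_univ, mul_pow, ← Real.rpow_natCast ((T : ℝ) ^ (1 / (M : ℝ))),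
          ← Real.rpow_mul hT0.le]
        congr 2
        ring

/-- As `zeros_ell` (PG/A12.lean). -/
theorem zeros_ellL (ι : Type) [Fintype ι] [DecidableEq ι] (r B c : ℝ) (κ M : ℕ) (hr : 0 < r) (hB : 0 ≤ B) (hc : 0 < c)
    (hM : 2 ≤ M) : ∃ C η : ℝ, 0 < C ∧ 0 < η ∧
      ∀ (θ₀ : ι → ℝ) (N : (ι → ℝ) → ℝ) (ν : (ι → ℕ) → ℝ), Exp r B θ₀ N ν → (∃ b, dg b ≤ κ ∧ c ≤ |ν b|) →
      ∀ (T : ℕ), 1 ≤ T → ∀ (a₀ h₀ : ι → ℚ), (∀ i, 1 ≤ 2 * (T : ℚ) * h₀ i) → ∀ Z : Finset (ι → ℚ),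
        (∀ σ ∈ Z, InC a₀ h₀ σ ∧ (∀ i, |(σ i : ℝ) - θ₀ i| ≤ ellL M T) ∧ N (fun i => (σ i : ℝ)) = 0) →
        (Z.card : ℝ) ≤ C * (T : ℝ) ^ ((Fintype.card ι : ℝ) / M - η) := by

  classical
  obtain ⟨C, γ, ℓ₀, hC1, hγ0, hγ1, hℓ₀, H⟩ := zeros_boxL ι r B c κ hr hB hc
  have hM0 : (0 : ℝ) < (M : ℝ) := by
    have : 0 < M := by omega
    exact_mod_cast this
  obtain ⟨T₀, hT₀⟩ := exists_nat_gt (1 / ℓ₀ ^ 2)
  have hinv : 0 < 1 / ℓ₀ ^ 2 := by positivity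
  have hT₀0 : (0 : ℝ) < (T₀ : ℝ) := lt_trans hinv hT₀
  have hη0 : 0 < min (1 / (M : ℝ)) (γ / 2) := lt_min (by positivity) (by positivity)
  refine ⟨C * (2 * 3 ^ Fintype.card ι) + 5 ^ Fintype.card ι * (T₀ : ℝ) ^ (min (1 / (M : ℝ)) (γ / 2)), min (1 / (M : ℝ)) (γ / 2),
    by positivity, hη0, ?_⟩
  intro θ₀ N ν hE hb T hT a₀ h₀ hh₀ Z hZ
  obtain ⟨hl0, hl1, hl2, hl3⟩ := ellL_spec hM hT
  have hT0 : (0 : ℝ) < (T : ℝ) := by exact_mod_cast hT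
  have hT1 : (1 : ℝ) ≤ (T : ℝ) := by exact_mod_cast hT
  have hTK : 0 < (T : ℝ) ^ ((Fintype.card ι : ℝ) / M - min (1 / (M : ℝ)) (γ / 2)) := Real.rpow_pos_of_pos hT0 _
  by_cases hTT : T₀ ≤ T
  · have hTT' : (T₀ : ℝ) ≤ (T : ℝ) := by exact_mod_cast hTT
    have hle : ellL M T ≤ ℓ₀ := by
      have h1 : (ellL M T) ^ 2 ≤ 1 / T := by
        calc (ellL M T) ^ 2 ≤ ((T : ℝ) ^ (-(1 / 2) : ℝ)) ^ 2 := pow_le_pow_left₀ hl0.le hl1 2
          _ = 1 / T := by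
            rw [← Real.rpow_natCast, ← Real.rpow_mul hT0.le]
            norm_num
            rw [Real.rpow_neg_one]
      have h2 : 1 / (T : ℝ) ≤ ℓ₀ ^ 2 := by
        rw [div_le_iff₀ hT0]
        rw [div_lt_iff₀ (by positivity)] at hT₀
        nlinarith [sq_nonneg ℓ₀]
      exact (pow_le_pow_iff_left₀ hl0.le hℓ₀.le (by norm_num)).1 (h1.trans h2)
    have h1 := H θ₀ N ν hE hb (ellL M T) hl0 hle T a₀ h₀ hh₀ Z hZ
    rw [hl3] at h1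
    have hone : (1 : ℝ) ≤ (T : ℝ) ^ (1 / (M : ℝ)) := Real.one_le_rpow hT1 (by positivity)
    have h2 : (1 + 2 * (T : ℝ) ^ (1 / (M : ℝ))) ^ Fintype.card ι ≤
        3 ^ Fintype.card ι * (T : ℝ) ^ ((Fintype.card ι : ℝ) / M) := by
      calc (1 + 2 * (T : ℝ) ^ (1 / (M : ℝ))) ^ Fintype.card ι ≤ (3 * (T : ℝ) ^ (1 / (M : ℝ))) ^ Fintype.card ι :=
            pow_le_pow_left₀ (by positivity) (by linarith) _
        _ = 3 ^ Fintype.card ι * (T : ℝ) ^ ((Fintype.card ι : ℝ) / M) := by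
            rw [mul_pow, ← Real.rpow_natCast ((T : ℝ) ^ (1 / (M : ℝ))), ← Real.rpow_mul hT0.le]
            congr 2
            ring
    have h3 : (1 + 2 * (T : ℝ) ^ (1 / (M : ℝ)))⁻¹ ≤ (T : ℝ) ^ (-min (1 / (M : ℝ)) (γ / 2)) := by
      calc (1 + 2 * (T : ℝ) ^ (1 / (M : ℝ)))⁻¹ ≤ ((T : ℝ) ^ (1 / (M : ℝ)))⁻¹ := by
            apply inv_anti₀ (by positivity)
            linarith
        _ = (T : ℝ) ^ (-(1 / (M : ℝ))) := (Real.rpow_neg hT0.le _).symm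
        _ ≤ _ := Real.rpow_le_rpow_of_exponent_le hT1 (neg_le_neg (min_le_left _ _))
    have h4 : ellL M T ^ γ ≤ (T : ℝ) ^ (-min (1 / (M : ℝ)) (γ / 2)) := by
      calc ellL M T ^ γ ≤ ((T : ℝ) ^ (-(1 / 2) : ℝ)) ^ γ := Real.rpow_le_rpow hl0.le hl1 hγ0.le
        _ = (T : ℝ) ^ (-(γ / 2)) := by
            rw [← Real.rpow_mul hT0.le]
            congr 1
            ring
        _ ≤ _ := Real.rpow_le_rpow_of_exponent_le hT1 (neg_le_neg (min_le_right _ _))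
    calc (Z.card : ℝ) ≤ C * (1 + 2 * (T : ℝ) ^ (1 / (M : ℝ))) ^ Fintype.card ι *
          ((1 + 2 * (T : ℝ) ^ (1 / (M : ℝ)))⁻¹ + ellL M T ^ γ) := h1
      _ ≤ C * (3 ^ Fintype.card ι * (T : ℝ) ^ ((Fintype.card ι : ℝ) / M)) *
          ((T : ℝ) ^ (-min (1 / (M : ℝ)) (γ / 2)) + (T : ℝ) ^ (-min (1 / (M : ℝ)) (γ / 2))) := by
          apply mul_le_mul
          · exact mul_le_mul_of_nonneg_left h2 (by linarith)
          · exact add_le_add h3 h4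
          · have : 0 < ellL M T ^ γ := Real.rpow_pos_of_pos hl0 _
            positivity
          · have : (0 : ℝ) ≤ C := by linarith
            positivity
      _ = C * (2 * 3 ^ Fintype.card ι) * (T : ℝ) ^ ((Fintype.card ι : ℝ) / M - min (1 / (M : ℝ)) (γ / 2)) := by
          rw [sub_eq_add_neg, Real.rpow_add hT0]
          ring
      _ ≤ _ := by
          apply mul_le_mul_of_nonneg_right _ hTK.le
          have : 0 ≤ 5 ^ Fintype.card ι * (T₀ : ℝ) ^ (min (1 / (M : ℝ)) (γ / 2)) := by positivity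
          linarith
  · have hTT' : (T : ℝ) ≤ (T₀ : ℝ) := by exact_mod_cast (not_le.1 hTT).le
    have h1 := card_box_leL hM hT θ₀ hh₀ Z (fun σ hσ => ⟨(hZ σ hσ).1, (hZ σ hσ).2.1⟩)
    calc (Z.card : ℝ) ≤ 5 ^ Fintype.card ι * (T : ℝ) ^ ((Fintype.card ι : ℝ) / M) := h1
      _ = 5 ^ Fintype.card ι * (T : ℝ) ^ (min (1 / (M : ℝ)) (γ / 2)) *
          (T : ℝ) ^ ((Fintype.card ι : ℝ) / M - min (1 / (M : ℝ)) (γ / 2)) := by
          rw [mul_assoc, ← Real.rpow_add hT0]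
          congr 2
          ring
      _ ≤ 5 ^ Fintype.card ι * (T₀ : ℝ) ^ (min (1 / (M : ℝ)) (γ / 2)) *
          (T : ℝ) ^ ((Fintype.card ι : ℝ) / M - min (1 / (M : ℝ)) (γ / 2)) := by
          apply mul_le_mul_of_nonneg_right _ hTK.le
          apply mul_le_mul_of_nonneg_left _ (by positivity)
          exact Real.rpow_le_rpow hT0.le hTT' hη0.le
      _ ≤ _ := by
          apply mul_le_mul_of_nonneg_right _ hTK.le
          have : 0 ≤ C * (2 * 3 ^ Fintype.card ι) := by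
            have : (0 : ℝ) ≤ C := by linarith
            positivity
          linarith

/-- The zeros of a combination with normalised polynomial coefficients in a box of side `ellL M T`. -/
theorem zeros_famL {ι : Type} [Fintype ι] [DecidableEq ι] {r : ℕ} {S : Set (ι → ℝ)} {V : Fin r → (ι → ℝ) → ℝ}
    (hV : VHyp S V) (D M : ℕ) (hM1 : 2 ≤ M) (ρ : ℝ) (hρ : 0 < ρ) : ∃ C η : ℝ, 0 < C ∧ 0 < η ∧ ∀ T : ℕ, 1 ≤ T →
      ∀ θ₀ ∈ S, ∀ y : Fin r → MvPolynomial ι ℝ, (∀ i l, (y i).degreeOf l ≤ D) → (∀ i b, |coeff b (y i)| ≤ 1) →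
      (∃ i b, ρ ≤ |coeff b (y i)|) → ∀ (a₀ h₀ : ι → ℚ), (∀ i, 1 ≤ 2 * (T : ℚ) * h₀ i) → ∀ Z : Finset (ι → ℚ),
        (∀ σ ∈ Z, InC a₀ h₀ σ ∧ (∀ i, |(σ i : ℝ) - θ₀ i| ≤ ellL M T) ∧
          ∑ i, eval (fun i => (σ i : ℝ)) (y i) * V i (fun i => (σ i : ℝ)) = 0) →
        (Z.card : ℝ) ≤ C * (T : ℝ) ^ ((Fintype.card ι : ℝ) / M - η) := by
  obtain ⟨r₀, B, κ, c, hr₀, hB, hc, HF⟩ := fam_exp hV D
  obtain ⟨C, η, hC, hη, H⟩ := zeros_ellL ι r₀ B (c * ρ) κ M hr₀ hB (by positivity) hM1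
  refine ⟨C, η, hC, hη, ?_⟩
  intro T hT θ₀ hθ₀ y hd hb hlow a₀ h₀ hh₀ Z hZ
  obtain ⟨ν, hν, hν2⟩ := HF θ₀ hθ₀ y ρ hd hb hρ hlow
  exact H θ₀ _ ν hν hν2 T hT a₀ h₀ hh₀ Z hZ

end Pool.Agent.Lib.MP_bbe012_lc.PL
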