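import Pool.Agent.Lib.MP_bbe012_lc.PL.L3
import Pool.Agent.Lib.MP_bbe012_lc.PN.Dy

/-!
# Lattices: few exceptional points
-/

namespace Pool.Agent.Lib.MP_bbe012_lc.PL

open MvPolynomial MeasureTheory Set PP PG PM PN Filter Topology

/-- A bounded part of a translate of a lattice is finite. -/
theorem finite_line {T : ℕ} {a h : ℚ} (hh : 1 ≤ 2 * (T : ℚ) * h) (R : ℝ) :
    {x : ℚ | (∃ k : ℤ, x = a + k * h) ∧ |(x : ℝ)| ≤ R}.Finite := by
  have hT0 : (0 : ℚ) < T := by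
    rcases Nat.eq_zero_or_pos T with rfl | hT
    · norm_num at hh
    · exact_mod_cast hT
  have hh0 : 0 < h := by
    by_contra hcon
    push Not at hcon
    nlinarith
  have hhr : (0 : ℝ) < (h : ℝ) := by exact_mod_cast hh0
  obtain ⟨m, hm⟩ := exists_nat_gt ((R + |(a : ℝ)|) / h)
  refine ((Set.finite_Icc (-(m : ℤ)) m).image fun k : ℤ => a + k * h).subset ?_
  rintro x ⟨⟨k, rfl⟩, hx⟩
  refine ⟨k, ?_, rfl⟩
  have h1 : |(k : ℝ)| * h ≤ R + |(a : ℝ)| := by
    have h2 : (k : ℝ) * h = (((a + k * h : ℚ)) : ℝ) - a := by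
      push_cast
      ring
    calc |(k : ℝ)| * h = |(k : ℝ) * h| := by rw [abs_mul, abs_of_pos hhr]
      _ = |(((a + k * h : ℚ)) : ℝ) - a| := by rw [h2]
      _ ≤ |(((a + k * h : ℚ)) : ℝ)| + |(a : ℝ)| := abs_sub _ _
      _ ≤ _ := by linarith
  have h3 : |(k : ℝ)| < m := by
    rw [div_lt_iff₀ hhr] at hm
    by_contra hcon
    push Not at hcon
    nlinarith
  rw [abs_lt] at h3
  rw [Set.mem_Icc]
  constructor
  · have h4 : ((-(m : ℤ) : ℤ) : ℝ) < (k : ℝ) := by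
      push_cast
      exact h3.1
    exact (Int.cast_lt.1 h4).le
  · have h4 : (k : ℝ) < ((m : ℤ) : ℝ) := by
      push_cast
      exact h3.2
    exact (Int.cast_lt.1 h4).le

theorem finite_box {s T : ℕ} {a h : Fin s → ℚ} (hh : ∀ i, 1 ≤ 2 * (T : ℚ) * h i) (R : ℝ) :
    {σ : Fin s → ℚ | InC a h σ ∧ ∀ i, |(σ i : ℝ)| ≤ R}.Finite := by
  refine (Set.Finite.pi' (fun i : Fin s => finite_line (a := a i) (hh i) R)).subset ?_
  intro σ hσ i
  exact ⟨hσ.1 i, hσ.2 i⟩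

/-- The counting theorem, as `count_badQ` (PM/Ct4.lean). -/
theorem count_badL {s r : ℕ} (hs : 0 < s) {Ω S : Set (Fin s → ℝ)} {V : Fin r → (Fin s → ℝ) → ℝ} (hV : WHyp Ω S V) (A : ℕ) :
    ∃ C η : ℝ, 0 < C ∧ 0 < η ∧ ∀ T : ℕ, 1 ≤ T → ∀ (a₀ h₀ : Fin s → ℚ), (∀ i, 1 ≤ 2 * (T : ℚ) * h₀ i) →
      ({σ : Fin s → ℚ | InC a₀ h₀ σ ∧ cst σ ∈ S ∧ ∃ c : Fin r → ℤ, c ≠ 0 ∧ (∀ j, |c j| ≤ (T : ℤ) ^ A) ∧
        ∑ j, (c j : ℝ) * V j (cst σ) = 0}.ncard : ℝ) ≤ C * (T : ℝ) ^ ((s : ℝ) - η) := by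
  classical
  by_cases hr : r = 0
  · subst hr
    refine ⟨1, 1, one_pos, one_pos, ?_⟩
    intro T hT a₀ h₀ hh₀
    have he : {σ : Fin s → ℚ | InC a₀ h₀ σ ∧ cst σ ∈ S ∧ ∃ c : Fin 0 → ℤ, c ≠ 0 ∧
        (∀ j, |c j| ≤ (T : ℤ) ^ A) ∧ ∑ j, (c j : ℝ) * V j (cst σ) = 0} = ∅ := by
      ext σ
      simp only [Set.mem_ofPred_eq, Set.mem_empty_iff_false, iff_false]
      rintro ⟨-, -, c, hc, -⟩
      exact hc (Subsingleton.elim _ _)
    rw [he]
    rw [Set.ncard_empty]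
    simp only [Nat.cast_zero, one_mul]
    positivity
  · have hr1 : 1 ≤ r := Nat.one_le_iff_ne_zero.2 hr
    obtain ⟨M, hMdef⟩ : ∃ M, M = 2 ^ (s + 2) * s * r := ⟨_, rfl⟩
    have hM1 : 2 ≤ M := by
      rw [hMdef]
      have h1 : 0 < s * r := by positivity
      have h2 : 4 ≤ 2 ^ (s + 2) := by
        rw [pow_add]
        have : 1 ≤ 2 ^ s := Nat.one_le_two_pow
        omega
      calc 2 ≤ 4 * 1 := by norm_num
        _ ≤ 2 ^ (s + 2) * (s * r) := Nat.mul_le_mul h2 h1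
        _ = 2 ^ (s + 2) * s * r := by ring
    have hM0 : (0 : ℝ) < (M : ℝ) := by
      have : 0 < M := by omega
      exact_mod_cast this
    obtain ⟨C, η, hC, hη, H⟩ := claimL hs hV M hMdef.ge hM1 A r hr1 le_rfl 0
    obtain ⟨R, hR⟩ := hV.compact.isBounded.exists_norm_le
    have hRS : ∀ θ ∈ S, ∀ i, |θ i| ≤ max R 0 := fun θ hθ i =>
      ((norm_le_pi_norm θ i).trans (hR θ hθ)).trans (le_max_left _ _)
    obtain ⟨R₀, hR₀def⟩ : ∃ R₀, R₀ = max R 0 := ⟨_, rfl⟩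
    have hR₀ : 0 ≤ R₀ := by
      rw [hR₀def]
      exact le_max_right _ _
    rw [← hR₀def] at hRS
    refine ⟨(2 * R₀ + 5) ^ s * C, η, by positivity, hη, ?_⟩
    intro T hT a₀ h₀ hh₀
    obtain ⟨hl0, hl1, hl2, hl3⟩ := ellL_spec hM1 hT
    have hT0 : (0 : ℝ) < (T : ℝ) := by exact_mod_cast hT
    have hT1 : (1 : ℝ) ≤ (T : ℝ) := by exact_mod_cast hT
    have hl1' : ellL M T ≤ 1 := by
      refine hl1.trans ?_
      exact Real.rpow_le_one_of_one_le_of_nonpos hT1 (by norm_num)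
    obtain ⟨Bad, hBad⟩ : ∃ Bad : Set (Fin s → ℚ), Bad = {σ : Fin s → ℚ | InC a₀ h₀ σ ∧ cst σ ∈ S ∧
        ∃ c : Fin r → ℤ, c ≠ 0 ∧ (∀ j, |c j| ≤ (T : ℤ) ^ A) ∧
          ∑ j, (c j : ℝ) * V j (cst σ) = 0} := ⟨_, rfl⟩
    rw [← hBad]
    have hfin : Bad.Finite := by
      refine (finite_box (a := a₀) hh₀ R₀).subset ?_
      intro σ hσ
      rw [hBad] at hσ
      exact ⟨hσ.1, fun i => hRS _ hσ.2.1 i⟩
    rw [Set.ncard_eq_toFinset_card _ hfin]
    have hmem : ∀ σ ∈ hfin.toFinset, InC a₀ h₀ σ ∧ cst σ ∈ S ∧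
        ∃ c : Fin r → ℤ, c ≠ 0 ∧ (∀ j, |c j| ≤ (T : ℤ) ^ A) ∧
          ∑ j, (c j : ℝ) * V j (cst σ) = 0 := by
      intro σ hσ
      rw [Set.Finite.mem_toFinset, hBad] at hσ
      exact hσ
    have hcfex : ∃ cf : (Fin s → ℚ) → Fin r → ℤ, ∀ σ ∈ hfin.toFinset, cf σ ≠ 0 ∧ (∀ j, |cf σ j| ≤ (T : ℤ) ^ A) ∧
        ∑ j, (cf σ j : ℝ) * V j (cst σ) = 0 := by
      refine ⟨fun σ => if hσ : σ ∈ hfin.toFinset then (hmem σ hσ).2.2.choose else 0, ?_⟩
      intro σ hσ
      simp only [dif_pos hσ]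
      exact (hmem σ hσ).2.2.choose_spec
    obtain ⟨cf, hcf⟩ := hcfex
    -- the boxes
    obtain ⟨m, hm⟩ : ∃ m : ℤ, m = ⌈R₀ / ellL M T⌉ + 1 := ⟨_, rfl⟩
    have hm0 : 0 ≤ m := by
      rw [hm]
      have : 0 ≤ ⌈R₀ / ellL M T⌉ := Int.ceil_nonneg (by positivity)
      omega
    have hmle : (m : ℝ) ≤ R₀ / ellL M T + 2 := by
      rw [hm]
      push_cast
      linarith [(Int.ceil_lt_add_one (R₀ / ellL M T)).le]
    have himg : hfin.toFinset.image (fun (σ : Fin s → ℚ) (i : Fin s) => ⌊(σ i : ℝ) / ellL M T⌋) ⊆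
        Fintype.piFinset (fun _ : Fin s => Finset.Icc (-m) m) := by
      intro z hz
      obtain ⟨σ, hσ, rfl⟩ := Finset.mem_image.1 hz
      rw [Fintype.mem_piFinset]
      intro i
      have h1 := hRS _ (hmem σ hσ).2.1 i
      rw [abs_le] at h1
      have h2 : -(R₀ / ellL M T) ≤ (σ i : ℝ) / ellL M T := by
        rw [← neg_div, div_le_div_iff_of_pos_right hl0]
        exact h1.1
      have h3 : (σ i : ℝ) / ellL M T ≤ R₀ / ellL M T := by
        rw [div_le_div_iff_of_pos_right hl0]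
        exact h1.2
      have h4 : R₀ / ellL M T ≤ (⌈R₀ / ellL M T⌉ : ℝ) := Int.le_ceil _
      rw [Finset.mem_Icc]
      constructor
      · rw [Int.le_floor, hm]
        push_cast
        linarith
      · have h5 : ⌊(σ i : ℝ) / ellL M T⌋ ≤ ⌈R₀ / ellL M T⌉ := by
          have h6 : ((⌊(σ i : ℝ) / ellL M T⌋ : ℤ) : ℝ) ≤ ((⌈R₀ / ellL M T⌉ : ℤ) : ℝ) :=
            (Int.floor_le _).trans (h3.trans h4)
          exact_mod_cast h6
        omega
    have hcardimg : ((hfin.toFinset.image (fun (σ : Fin s → ℚ) (i : Fin s) => ⌊(σ i : ℝ) / ellL M T⌋)).card : ℝ) ≤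
        ((2 * R₀ + 5) / ellL M T) ^ s := by
      calc ((hfin.toFinset.image (fun (σ : Fin s → ℚ) (i : Fin s) => ⌊(σ i : ℝ) / ellL M T⌋)).card : ℝ) ≤
            ((Fintype.piFinset (fun _ : Fin s => Finset.Icc (-m) m)).card : ℝ) := by
            exact_mod_cast Finset.card_le_card himg
        _ = (((Finset.Icc (-m) m).card : ℝ)) ^ s := by
            rw [Fintype.card_piFinset, Finset.prod_const, Finset.card_univ, Fintype.card_fin]
            push_cast
            rfl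
        _ ≤ _ := by
            apply pow_le_pow_left₀ (Nat.cast_nonneg _)
            rw [Int.card_Icc]
            have h1 : (((m + 1 - -m).toNat : ℕ) : ℝ) = 2 * (m : ℝ) + 1 := by
              have h2 : (((m + 1 - -m).toNat : ℕ) : ℤ) = 2 * m + 1 := by
                rw [Int.toNat_of_nonneg (by omega)]
                ring
              exact_mod_cast h2
            rw [h1, le_div_iff₀ hl0]
            have h3 : (m : ℝ) * ellL M T ≤ R₀ + 2 * ellL M T := by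
              calc (m : ℝ) * ellL M T ≤ (R₀ / ellL M T + 2) * ellL M T := mul_le_mul_of_nonneg_right hmle hl0.le
                _ = R₀ + 2 * ellL M T := by
                    field_simp
            nlinarith
    have hfib : ∀ z ∈ hfin.toFinset.image (fun (σ : Fin s → ℚ) (i : Fin s) => ⌊(σ i : ℝ) / ellL M T⌋),
        (((hfin.toFinset.filter fun σ => (fun i => ⌊(σ i : ℝ) / ellL M T⌋) = z).card : ℕ) : ℝ) ≤
          C * (T : ℝ) ^ ((s : ℝ) / M - η) := by
      intro z hz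
      obtain ⟨σ₀, hσ₀, rfl⟩ := Finset.mem_image.1 hz
      have hsum : ∀ (θ : Fin s → ℝ) (j : Fin r),
          ∑ i, aeval θ ((fun (j i : Fin r) => if i = j then (1 : MvPolynomial (Fin s) ℚ) else 0) j i) * V i θ = V j θ := by
        intro θ j
        rw [Finset.sum_eq_single j]
        · simp
        · intro i _ hij
          simp [if_neg hij]
        · intro h
          exact absurd (Finset.mem_univ j) h
      refine H T hT a₀ h₀ hh₀ (cst σ₀) (hmem σ₀ hσ₀).2.1 (fun j i => if i = j then 1 else 0) ?_ ?_ _ cf ?_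
      · intro j i l
        by_cases hij : i = j
        · simp only [if_pos hij]
          rw [degreeOf_one]
        · simp only [if_neg hij]
          rw [degreeOf_zero]
      · intro P hP j
        refine hV.indep P ?_ j
        intro θ hθ
        rw [← hP θ hθ]
        refine Finset.sum_congr rfl fun j _ => ?_
        congr 1
        exact (hsum θ j).symm
      · intro σ hσ
        rw [Finset.mem_filter] at hσ
        obtain ⟨hσ1, hσ2⟩ := hσ
        obtain ⟨c1, c2, c3⟩ := hcf σ hσ1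
        refine ⟨(hmem σ hσ1).1, ?_, hV.sub (hmem σ hσ1).2.1, ?_, c2, ?_⟩
        · intro i
          have h1 : ⌊(σ i : ℝ) / ellL M T⌋ = ⌊(σ₀ i : ℝ) / ellL M T⌋ := congrFun hσ2 i
          have h2 : |(σ i : ℝ) / ellL M T - (σ₀ i : ℝ) / ellL M T| < 1 := Int.abs_sub_lt_one_of_floor_eq_floor h1
          rw [← sub_div, abs_div, abs_of_pos hl0, div_lt_one hl0] at h2
          exact h2.le
        · by_contra hcon
          push Not at hcon
          exact c1 (funext fun j => hcon j)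
        · rw [← c3]
          refine Finset.sum_congr rfl fun j _ => ?_
          congr 1
          exact hsum _ j
    calc ((hfin.toFinset.card : ℕ) : ℝ) =
          ∑ z ∈ hfin.toFinset.image (fun (σ : Fin s → ℚ) (i : Fin s) => ⌊(σ i : ℝ) / ellL M T⌋),
            (((hfin.toFinset.filter fun σ => (fun i => ⌊(σ i : ℝ) / ellL M T⌋) = z).card : ℕ) : ℝ) := by
          rw [← Nat.cast_sum]
          exact_mod_cast Finset.card_eq_sum_card_image _ _
      _ ≤ ∑ z ∈ hfin.toFinset.image (fun (σ : Fin s → ℚ) (i : Fin s) => ⌊(σ i : ℝ) / ellL M T⌋),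
            C * (T : ℝ) ^ ((s : ℝ) / M - η) := Finset.sum_le_sum hfib
      _ = ((hfin.toFinset.image (fun (σ : Fin s → ℚ) (i : Fin s) => ⌊(σ i : ℝ) / ellL M T⌋)).card : ℝ) *
            (C * (T : ℝ) ^ ((s : ℝ) / M - η)) := by
          rw [Finset.sum_const, nsmul_eq_mul]
      _ ≤ ((2 * R₀ + 5) / ellL M T) ^ s * (C * (T : ℝ) ^ ((s : ℝ) / M - η)) := by
          apply mul_le_mul_of_nonneg_right hcardimg
          have : 0 < (T : ℝ) ^ ((s : ℝ) / M - η) := Real.rpow_pos_of_pos hT0 _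
          positivity
      _ = (2 * R₀ + 5) ^ s * C * (T : ℝ) ^ ((s : ℝ) - η) := by
          have h1 : (ellL M T ^ s)⁻¹ = (T : ℝ) ^ ((1 - 1 / (M : ℝ)) * (s : ℝ)) := by
            rw [ellL, ← Real.rpow_natCast ((T : ℝ) ^ (-(1 - 1 / (M : ℝ)))), ← Real.rpow_mul hT0.le,
              ← Real.rpow_neg hT0.le]
            congr 1
            ring
          rw [div_pow, div_eq_mul_inv, h1]
          have h2 : (T : ℝ) ^ ((s : ℝ) - η) =
              (T : ℝ) ^ ((1 - 1 / (M : ℝ)) * (s : ℝ)) * (T : ℝ) ^ ((s : ℝ) / M - η) := by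
            rw [← Real.rpow_add hT0]
            congr 1
            ring
          rw [h2]
          ring


private theorem cont_aevalX {s : ℕ} (z : MvPolynomial (Fin s) ℚ) : Continuous fun θ : Fin s → ℝ => (aeval θ z : ℝ) := by
  have h : (fun θ : Fin s → ℝ => (aeval θ z : ℝ)) = fun θ => eval θ (map (algebraMap ℚ ℝ) z) := by
    funext θ
    rw [eval_map, aeval_def]
  rw [h]
  exact MvPolynomial.continuous_eval _

/-- Few exceptional parameters in a compact set, as `few_rel` (PN/Fb.lean). -/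
theorem few_relL {s r : ℕ} (hs : 0 < s) {z : MvPolynomial (Fin s) ℚ} {e : Fin s → ℚ} {S : Set (Fin s → ℝ)} (hS : IsCompact S)
    (hSz : ∀ θ ∈ S, aeval θ z ≠ 0) {V' : Fin r → (Fin s → ℝ) → ℝ} (hV : ∀ i, AnalyticOnNhd ℝ (V' i) (Om z e))
    (hI : ∀ P : Fin r → MvPolynomial (Fin s) ℚ, (∀ θ ∈ Om z e, ∑ i, aeval θ (P i) * V' i θ = 0) → ∀ i, P i = 0) (A₃ : ℕ) :
    ∃ C η : ℝ, 0 < C ∧ 0 < η ∧ ∀ T : ℕ, 1 ≤ T → ∀ (a₀ h₀ : Fin s → ℚ), (∀ i, 1 ≤ 2 * (T : ℚ) * h₀ i) →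
      ({θ : Fin s → ℚ | InC a₀ h₀ θ ∧ cst θ ∈ S ∩ Om z e ∧
        ∃ cc : Fin r → ℤ, cc ≠ 0 ∧ (∀ i, |cc i| ≤ (T : ℤ) ^ A₃) ∧ ∑ i, (cc i : ℝ) * V' i (cst θ) = 0}.ncard : ℝ) ≤
        C * (T : ℝ) ^ ((s : ℝ) - η) := by
  have hop : IsOpen {θ : Fin s → ℝ | aeval θ z ≠ 0} :=
    isOpen_ne_fun (cont_aevalX z) continuous_const
  have hΩ : IsOpen (Om z e) := hop.connectedComponentIn
  have hcl : IsClosed (S ∩ Om z e) := by
    have e1 : S ∩ Om z e = S ∩ (⋃ θ ∈ {θ : Fin s → ℝ | aeval θ z ≠ 0} \ Om z e,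
        connectedComponentIn {θ : Fin s → ℝ | aeval θ z ≠ 0} θ)ᶜ := by
      ext θ
      simp only [Set.mem_inter_iff, Set.mem_compl_iff, Set.mem_iUnion, not_exists]
      refine and_congr_right fun hθ => ⟨fun h θ' hθ' h2 => ?_, fun h => ?_⟩
      · have h3 : connectedComponentIn {θ : Fin s → ℝ | aeval θ z ≠ 0} θ' =
            connectedComponentIn {θ : Fin s → ℝ | aeval θ z ≠ 0} θ := connectedComponentIn_eq h2
        have h4 : connectedComponentIn {θ : Fin s → ℝ | aeval θ z ≠ 0} (cst e) =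
            connectedComponentIn {θ : Fin s → ℝ | aeval θ z ≠ 0} θ := connectedComponentIn_eq h
        apply hθ'.2
        rw [Om, h4, ← h3]
        exact mem_connectedComponentIn hθ'.1
      · by_contra h2
        exact h θ ⟨hSz θ hθ, h2⟩ (mem_connectedComponentIn (hSz θ hθ))
    rw [e1]
    refine hS.isClosed.inter (isOpen_biUnion fun θ _ => ?_).isClosed_compl
    exact hop.connectedComponentIn
  have hW : WHyp (Om z e) (S ∩ Om z e) V' :=
    { op := hΩ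
      conn := isPreconnected_connectedComponentIn
      compact := hS.of_isClosed_subset hcl Set.inter_subset_left
      sub := Set.inter_subset_right
      ana := hV
      indep := hI }
  exact count_badL hs hW A₃

end Pool.Agent.Lib.MP_bbe012_lc.PL
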