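import Pool.Agent.Lib.MP_bbe012_lc.PL.L4
import Pool.Agent.Lib.MP_bbe012_lc.PL.Defs

/-!
# Lattices: few points near a hypersurface, and lattices as unions of translates of nearly cubic lattices
-/

namespace Pool.Agent.Lib.MP_bbe012_lc.PL

open MvPolynomial MeasureTheory Set PP PG PM PN Filter Topology

/-- a polynomial as a sum over a box of exponents -/
private theorem dens_box {s : ℕ} (z : MvPolynomial (Fin s) ℚ) (hz : z ≠ 0) : ∃ (κ : ℕ)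
    (a : (Fin s → Fin (κ + 1)) → ℚ), (∃ b, a b ≠ 0) ∧ ∀ θ : Fin s → ℝ,
      aeval θ z = ∑ b, (a b : ℝ) * ∏ i, θ i ^ (b i : ℕ) := by
  classical
  obtain ⟨κ, hκ⟩ : ∃ κ, ∀ m ∈ z.support, ∀ i, m i ≤ κ := by
    refine ⟨z.totalDegree, fun m hm i => ?_⟩
    refine le_trans ?_ (le_totalDegree hm)
    rw [Finsupp.sum]
    by_cases hi : m i = 0
    · rw [hi]
      exact Nat.zero_le _
    · exact Finset.single_le_sum (f := fun j => m j) (fun _ _ => Nat.zero_le _)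
        (Finsupp.mem_support_iff.2 hi)
  obtain ⟨tf, htf⟩ : ∃ tf : (Fin s → Fin (κ + 1)) → (Fin s →₀ ℕ), ∀ b i, tf b i = (b i : ℕ) :=
    ⟨fun b => Finsupp.equivFunOnFinite.symm fun i => (b i : ℕ), fun b i => rfl⟩
  have hinj : Function.Injective tf := by
    intro b b' h
    funext i
    apply Fin.ext
    rw [← htf, ← htf, h]
  have hsurj : ∀ m ∈ z.support, ∃ b, tf b = m := by
    intro m hm
    refine ⟨fun i => ⟨m i, by have := hκ m hm i; omega⟩, ?_⟩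
    ext i
    rw [htf]
  refine ⟨κ, fun b => coeff (tf b) z, ?_, fun θ => ?_⟩
  · obtain ⟨m, hm⟩ := support_nonempty.2 hz
    obtain ⟨b, hb⟩ := hsurj m hm
    refine ⟨b, ?_⟩
    show coeff (tf b) z ≠ 0
    rw [hb]
    exact mem_support_iff.1 hm
  · have h1 : aeval θ z = ∑ m ∈ z.support, ((coeff m z : ℚ) : ℝ) * ∏ i, θ i ^ m i := by
      rw [aeval_def, eval₂_eq']
      rfl
    rw [h1]
    have h2 : ∑ m ∈ z.support, ((coeff m z : ℚ) : ℝ) * ∏ i, θ i ^ m i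
        = ∑ m ∈ Finset.univ.image tf, ((coeff m z : ℚ) : ℝ) * ∏ i, θ i ^ m i := by
      apply Finset.sum_subset
      · intro m hm
        obtain ⟨b, hb⟩ := hsurj m hm
        exact Finset.mem_image.2 ⟨b, Finset.mem_univ _, hb⟩
      · intro m _ hm
        rw [notMem_support_iff.1 hm, Rat.cast_zero, zero_mul]
    rw [h2, Finset.sum_image (fun b _ b' _ h => hinj h)]
    apply Finset.sum_congr rfl
    intro b _
    congr 1
    apply Finset.prod_congr rfl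
    intro i _
    rw [htf]

/-- Few points of a translate of a lattice near the hypersurface `z = 0`. -/
theorem dens_L {s : ℕ} {z : MvPolynomial (Fin s) ℚ} (hz : z ≠ 0) {R : ℕ} (hR1 : 1 ≤ R) {ε : ℝ} (hε : 0 < ε) :
    ∃ ε' : ℝ, 0 < ε' ∧ ∃ T₀ : ℕ, ∀ T : ℕ, T₀ ≤ T → ∀ (a₀ h₀ : Fin s → ℚ), (∀ i, 1 ≤ 2 * (T : ℚ) * h₀ i) →
      ({θ : Fin s → ℚ | InC a₀ h₀ θ ∧ (∀ i, |(θ i : ℝ)| ≤ R) ∧ |aeval (cst θ) z| < ε'}.ncard : ℝ) ≤ ε * (T : ℝ) ^ s := by
  classical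
  obtain ⟨κ, a, ⟨b₀, hb₀⟩, hz'⟩ := dens_box z hz
  obtain ⟨C, γ, hC, hγ0, -, hcount⟩ := count_multi' (Fin s) κ
  have hR0 : (0 : ℝ) < R := by exact_mod_cast hR1
  have hR1' : (1 : ℝ) ≤ R := by exact_mod_cast hR1
  obtain ⟨ρ, hρ⟩ : ∃ ρ : ℝ, ρ = |(a b₀ : ℝ) * ∏ i, (R : ℝ) ^ (b₀ i : ℕ)| := ⟨_, rfl⟩
  have hρ0 : 0 < ρ := by
    rw [hρ, abs_pos]
    refine mul_ne_zero (by exact_mod_cast hb₀) (Finset.prod_ne_zero_iff.2 fun i _ => ?_)
    positivity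
  -- the lower bound of `|z|`
  obtain ⟨ε', hε'0, hε'1, hε'⟩ : ∃ ε' : ℝ, 0 < ε' ∧ ε' ≤ ρ ∧
      C * (3 * R) ^ s * (ε' / ρ) ^ γ ≤ ε / 2 := by
    have h1 : Tendsto (fun x : ℝ => C * (3 * R) ^ s * (x / ρ) ^ γ) (𝓝[>] 0) (𝓝 0) := by
      have h2 : Tendsto (fun x : ℝ => (x / ρ) ^ γ) (𝓝 0) (𝓝 ((0 / ρ) ^ γ)) :=
        (tendsto_id.div_const ρ).rpow_const (Or.inr hγ0.le)
      rw [zero_div, Real.zero_rpow hγ0.ne'] at h2
      have h3 := h2.const_mul (C * (3 * (R : ℝ)) ^ s)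
      rw [mul_zero] at h3
      exact h3.mono_left nhdsWithin_le_nhds
    have h4 : ∀ᶠ x : ℝ in 𝓝[>] 0, C * (3 * R) ^ s * (x / ρ) ^ γ < ε / 2 :=
      h1.eventually_lt_const (by positivity)
    have h5 : ∀ᶠ x : ℝ in 𝓝[>] 0, x < ρ :=
      (eventually_lt_nhds hρ0).filter_mono nhdsWithin_le_nhds
    obtain ⟨x, ⟨h6, h7⟩, h8⟩ := ((h4.and h5).and eventually_mem_nhdsWithin).exists
    exact ⟨x, h8, h7.le, h6.le⟩
  obtain ⟨T₁, hT₁⟩ : ∃ T₁ : ℕ, 2 * (C * (3 * R) ^ s) / ε ≤ T₁ := exists_nat_ge _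
  refine ⟨ε', hε'0, max 1 T₁, fun T hT a₀ h₀ hh₀ => ?_⟩
  have hT1 : 1 ≤ T := (le_max_left _ _).trans hT
  have hT1' : (1 : ℝ) ≤ T := by exact_mod_cast hT1
  have hTT : (T₁ : ℝ) ≤ T := by exact_mod_cast (le_max_right _ _).trans hT
  have hfl : ∀ i, {x : ℚ | (∃ k : ℤ, x = a₀ i + k * h₀ i) ∧ |(x : ℝ)| ≤ R}.Finite := fun i =>
    finite_line (hh₀ i) R
  obtain ⟨H, hH⟩ : ∃ H : Fin s → Finset ℚ, ∀ i x, x ∈ H i ↔ (∃ k : ℤ, x = a₀ i + k * h₀ i) ∧ |(x : ℝ)| ≤ R :=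
    ⟨fun i => (hfl i).toFinset, fun i x => (hfl i).mem_toFinset⟩
  obtain ⟨X, hX⟩ : ∃ X : Fin s → Finset ℝ, ∀ i, X i = (H i).image fun x : ℚ => ((x : ℝ) - 0) / R := ⟨_, fun _ => rfl⟩
  obtain ⟨B₂, hB₂⟩ : ∃ B₂ : Finset (Fin s → ℝ), B₂ = (Fintype.piFinset X).filter
    fun x => |∑ b : Fin s → Fin (κ + 1), ((a b : ℝ) * ∏ i, (R : ℝ) ^ (b i : ℕ)) * ∏ i, x i ^ (b i : ℕ)|
      ≤ ε' := ⟨_, rfl⟩
  have hB₂c : (B₂.card : ℝ) ≤ C * (1 + R * (2 * (T : ℝ))) ^ s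
      * ((1 + R * (2 * (T : ℝ)))⁻¹ + (ε' / ρ) ^ γ) := by
    have h := hcount (fun b => (a b : ℝ) * ∏ i, (R : ℝ) ^ (b i : ℕ)) ρ ε' (R * (2 * (T : ℝ)))
      X hρ0 hε'0 hε'1 (by positivity) (fun i => by
        rw [hX]
        exact icount_coset (a := a₀ i) (hh₀ i) 0 R hR0 _ fun x hx => ((hH i x).1 hx).1)
      (fun i x hx => by
        rw [hX] at hx
        obtain ⟨y, hy, rfl⟩ := Finset.mem_image.1 hx
        have h2 : |(y : ℝ)| ≤ (R : ℝ) := ((hH i y).1 hy).2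
        rw [sub_zero, abs_div, abs_of_pos hR0, div_le_one hR0]
        exact h2) ⟨b₀, hρ.le⟩
    rw [Fintype.card_fin] at h
    rw [hB₂]
    exact h
  -- the bad points
  have hbad : ({θ : Fin s → ℚ | InC a₀ h₀ θ ∧ (∀ i, |(θ i : ℝ)| ≤ R) ∧ |aeval (cst θ) z| < ε'}.ncard : ℝ)
      ≤ B₂.card := by
    have h1 : {θ : Fin s → ℚ | InC a₀ h₀ θ ∧ (∀ i, |(θ i : ℝ)| ≤ R) ∧ |aeval (cst θ) z| < ε'}
        ⊆ (((Fintype.piFinset H).filter fun θ =>
          (fun i => ((θ i : ℝ) - 0) / R) ∈ B₂ : Finset (Fin s → ℚ)) : Set (Fin s → ℚ)) := by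
      rintro θ ⟨h2, h3, h4⟩
      have hmem : ∀ i, θ i ∈ H i := fun i => (hH i _).2 ⟨h2 i, h3 i⟩
      rw [Finset.mem_coe, Finset.mem_filter, Fintype.mem_piFinset]
      refine ⟨hmem, ?_⟩
      rw [hB₂, Finset.mem_filter, Fintype.mem_piFinset]
      refine ⟨fun i => ?_, ?_⟩
      · rw [hX]
        exact Finset.mem_image.2 ⟨θ i, hmem i, rfl⟩
      · refine le_trans (le_of_eq ?_) h4.le
        rw [hz']
        congr 1
        apply Finset.sum_congr rfl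
        intro b _
        rw [mul_assoc, ← Finset.prod_mul_distrib]
        congr 1
        apply Finset.prod_congr rfl
        intro i _
        show (R : ℝ) ^ (b i : ℕ) * (((θ i : ℝ) - 0) / R) ^ (b i : ℕ) = (θ i : ℝ) ^ (b i : ℕ)
        rw [sub_zero, ← mul_pow, mul_div_cancel₀ _ hR0.ne']
    have h2 : {θ : Fin s → ℚ | InC a₀ h₀ θ ∧ (∀ i, |(θ i : ℝ)| ≤ R) ∧ |aeval (cst θ) z| < ε'}.ncard
        ≤ B₂.card := by
      refine (ncard_le_ncard h1 (Finset.finite_toSet _)).trans ?_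
      rw [ncard_coe_finset]
      apply Finset.card_le_card_of_injOn (fun (θ : Fin s → ℚ) i => ((θ i : ℝ) - 0) / R)
      · intro θ hθ
        exact (Finset.mem_filter.1 (Finset.mem_coe.1 hθ)).2
      · intro θ _ θ' _ h
        funext i
        have h3 : ((θ i : ℝ) - 0) / R = ((θ' i : ℝ) - 0) / R := congrFun h i
        rw [sub_zero, sub_zero, div_left_inj' hR0.ne'] at h3
        exact_mod_cast h3
    exact_mod_cast h2
  have hTs : 0 < (T : ℝ) ^ s := by positivity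
  refine hbad.trans (hB₂c.trans ?_)
  have hRT : (1 : ℝ) ≤ R * (T : ℝ) := by nlinarith
  have h1 : (1 + R * (2 * (T : ℝ))) ^ s ≤ (3 * R) ^ s * (T : ℝ) ^ s := by
    rw [← mul_pow]
    apply pow_le_pow_left₀ (by positivity)
    nlinarith
  have h2 : (1 + R * (2 * (T : ℝ)))⁻¹ ≤ (T : ℝ)⁻¹ := by
    apply inv_anti₀ (by positivity)
    nlinarith
  have h3 : C * (3 * R) ^ s * (T : ℝ)⁻¹ ≤ ε / 2 := by
    rw [← div_eq_mul_inv, div_le_iff₀ (by positivity)]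
    rw [div_le_iff₀ (by positivity)] at hT₁
    nlinarith
  calc C * (1 + R * (2 * (T : ℝ))) ^ s * ((1 + R * (2 * (T : ℝ)))⁻¹ + (ε' / ρ) ^ γ)
      ≤ C * ((3 * R) ^ s * (T : ℝ) ^ s) * ((T : ℝ)⁻¹ + (ε' / ρ) ^ γ) := by
        apply mul_le_mul
        · exact mul_le_mul_of_nonneg_left h1 (by linarith)
        · linarith
        · positivity
        · positivity
    _ = (C * (3 * R) ^ s * (T : ℝ)⁻¹ + C * (3 * R) ^ s * (ε' / ρ) ^ γ) * (T : ℝ) ^ s := by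
        ring
    _ ≤ (ε / 2 + ε / 2) * (T : ℝ) ^ s :=
        mul_le_mul_of_nonneg_right (by linarith) hTs.le
    _ = _ := by ring

/-- The lattice `∏ (1 / D_i) ℤ` with `D_i ≥ T` is the union of at most `∏ D_i / T ^ s` translates of a lattice with steps at least `1 / (2 T)`. -/
theorem coset_cover {s T : ℕ} (hT : 1 ≤ T) (D : Fin s → ℕ) (hD : ∀ i, T ≤ D i) :
    ∃ (Q : Finset (Fin s → ℚ)) (h : Fin s → ℚ), (∀ i, 1 ≤ 2 * (T : ℚ) * h i) ∧
      (Q.card : ℝ) * (T : ℝ) ^ s ≤ ∏ i, (D i : ℝ) ∧ ∀ θ, InLattice D θ → ∃ a ∈ Q, InC a h θ := by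
  classical
  obtain ⟨m, hm⟩ : ∃ m : Fin s → ℕ, ∀ i, m i = D i / T := ⟨_, fun _ => rfl⟩
  have hm1 : ∀ i, 1 ≤ m i := by
    intro i
    rw [hm i]
    exact (Nat.le_div_iff_mul_le (by omega)).2 (by have := hD i; omega)
  have hD0 : ∀ i, 0 < D i := fun i => lt_of_lt_of_le hT (hD i)
  have hm2 : ∀ i, m i * T ≤ D i := by
    intro i
    rw [hm i]
    exact Nat.div_mul_le_self _ _
  have hm3 : ∀ i, D i ≤ 2 * T * m i := by
    intro i
    have h1 : D i < T * (m i + 1) := by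
      rw [hm i]
      exact Nat.lt_mul_div_succ _ (by omega)
    have h2 : T * (m i + 1) ≤ 2 * T * m i := by
      have := hm1 i
      nlinarith
    omega
  refine ⟨(Fintype.piFinset fun i => Finset.range (m i)).image fun j i => ((j i : ℕ) : ℚ) / (D i : ℚ),
    fun i => (m i : ℚ) / (D i : ℚ), ?_, ?_, ?_⟩
  · intro i
    have h1 : (0 : ℚ) < D i := by exact_mod_cast hD0 i
    have h2 : (D i : ℚ) ≤ 2 * T * m i := by exact_mod_cast hm3 i
    rw [← mul_div_assoc, le_div_iff₀ h1, one_mul]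
    exact h2
  · have h1 : (((Fintype.piFinset fun i => Finset.range (m i)).image
        fun (j : Fin s → ℕ) i => ((j i : ℕ) : ℚ) / (D i : ℚ)).card : ℝ) ≤ ∏ i, (m i : ℝ) := by
      have h2 : ((Fintype.piFinset fun i => Finset.range (m i)).image
        fun (j : Fin s → ℕ) i => ((j i : ℕ) : ℚ) / (D i : ℚ)).card ≤ ∏ i, m i := by
        refine Finset.card_image_le.trans (le_of_eq ?_)
        rw [Fintype.card_piFinset]
        simp
      exact_mod_cast h2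
    calc _ ≤ (∏ i, (m i : ℝ)) * (T : ℝ) ^ s := mul_le_mul_of_nonneg_right h1 (by positivity)
      _ = ∏ i, ((m i : ℝ) * T) := by
        rw [Finset.prod_mul_distrib, Finset.prod_const, Finset.card_univ, Fintype.card_fin]
      _ ≤ _ := Finset.prod_le_prod (fun i _ => by positivity) fun i _ => by exact_mod_cast hm2 i
  · intro θ hθ
    choose k hk using hθ
    have hmz : ∀ i, (0 : ℤ) < m i := fun i => by exact_mod_cast hm1 i
    refine ⟨fun i => (((k i % (m i : ℤ)).toNat : ℕ) : ℚ) / (D i : ℚ), ?_, ?_⟩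
    · refine Finset.mem_image.2 ⟨fun i => (k i % (m i : ℤ)).toNat, ?_, rfl⟩
      rw [Fintype.mem_piFinset]
      intro i
      rw [Finset.mem_range]
      have h1 := Int.emod_lt_of_pos (k i) (hmz i)
      have h2 := Int.emod_nonneg (k i) (hmz i).ne'
      omega
    · intro i
      refine ⟨k i / (m i : ℤ), ?_⟩
      have h1 : (0 : ℚ) < D i := by exact_mod_cast hD0 i
      have h2 := Int.emod_nonneg (k i) (hmz i).ne'
      have h3 : ((((k i % (m i : ℤ)).toNat : ℕ) : ℤ) : ℚ) = ((k i % (m i : ℤ) : ℤ) : ℚ) := by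
        rw [Int.toNat_of_nonneg h2]
      have h4 : (k i : ℚ) = ((k i % (m i : ℤ) : ℤ) : ℚ) + ((m i : ℤ) : ℚ) * ((k i / (m i : ℤ) : ℤ) : ℚ) := by
        exact_mod_cast (Int.emod_add_mul_ediv (k i) (m i)).symm
      have h5 : θ i = (k i : ℚ) / D i := by
        rw [eq_div_iff h1.ne', mul_comm]
        exact hk i
      rw [h5, h4]
      push_cast at h3 ⊢
      rw [h3]
      field_simp

end Pool.Agent.Lib.MP_bbe012_lc.PL
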