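import Pool.Agent.Lib.MP_bbe012_lc.PL.L5
import Pool.Agent.Lib.MP_bbe012_lc.PN.Dy

/-!
# Lattices: the exceptional points in a compact set and in a box
-/

namespace Pool.Agent.Lib.MP_bbe012_lc.PL

open MvPolynomial MeasureTheory Set PP PG PM PN Filter Topology

private theorem l6_ana {s : ℕ} (q : MvPolynomial (Fin s) ℚ) (Ω : Set (Fin s → ℝ)) :
    AnalyticOnNhd ℝ (fun θ : Fin s → ℝ => (aeval θ q : ℝ)) Ω := by
  have h : (fun θ : Fin s → ℝ => (aeval θ q : ℝ)) = fun θ => ∑ m ∈ q.support, ((coeff m q : ℚ) : ℝ) * ∏ i, θ i ^ m i := by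
    funext θ
    rw [aeval_def, eval₂_eq']
    rfl
  rw [h]
  refine Finset.analyticOnNhd_fun_sum _ fun m _ => ?_
  intro θ _
  refine analyticAt_const.fun_mul ?_
  have h2 : AnalyticOnNhd ℝ (fun θ : Fin s → ℝ => ∏ i, θ i ^ m i) Set.univ := by
    refine Finset.analyticOnNhd_fun_prod _ fun i _ => ?_
    intro θ _
    exact ((ContinuousLinearMap.proj (R := ℝ) (φ := fun _ : Fin s => ℝ) i).analyticAt θ).fun_pow _
  exact h2 θ (Set.mem_univ θ)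

private theorem l6_zero {s : ℕ} {q : MvPolynomial (Fin s) ℚ} (h : ∀ θ : Fin s → ℝ, aeval θ q = (0 : ℝ)) : q = 0 := by
  have h1 : map (algebraMap ℚ ℝ) q = 0 := by
    apply MvPolynomial.funext
    intro θ
    rw [eval_map, ← aeval_def, h θ, map_zero]
  exact (map_injective _ (algebraMap ℚ ℝ).injective) (by rw [h1, map_zero])

/-- Few zeros of a polynomial in a translate of a lattice. -/
theorem few_zerosL {s : ℕ} (hs : 0 < s) {q : MvPolynomial (Fin s) ℚ} (hq : q ≠ 0) {S : Set (Fin s → ℝ)} (hS : IsCompact S) :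
    ∃ C η : ℝ, 0 < C ∧ 0 < η ∧ ∀ T : ℕ, 1 ≤ T → ∀ (a₀ h₀ : Fin s → ℚ), (∀ i, 1 ≤ 2 * (T : ℚ) * h₀ i) →
      ({θ : Fin s → ℚ | InC a₀ h₀ θ ∧ cst θ ∈ S ∧ aeval (cst θ) q = (0 : ℝ)}.ncard : ℝ) ≤ C * (T : ℝ) ^ ((s : ℝ) - η) := by
  have hW : WHyp Set.univ S (fun (_ : Fin 1) (θ : Fin s → ℝ) => (aeval θ q : ℝ)) :=
    { op := isOpen_univ
      conn := isPreconnected_univ
      compact := hS
      sub := Set.subset_univ _
      ana := fun _ => l6_ana q _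
      indep := by
        intro P hP j
        have h1 : P 0 * q = 0 := by
          apply l6_zero
          intro θ
          have h2 := hP θ (Set.mem_univ θ)
          rw [Fin.sum_univ_one] at h2
          rw [map_mul]
          exact h2
        have h3 := (mul_eq_zero.1 h1).resolve_right hq
        rw [Subsingleton.elim j 0]
        exact h3 }
  obtain ⟨C, η, hC, hη, H⟩ := count_badL hs hW 0
  refine ⟨C, η, hC, hη, fun T hT a₀ h₀ hh₀ => ?_⟩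
  refine le_trans ?_ (H T hT a₀ h₀ hh₀)
  obtain ⟨R, hR⟩ := hS.isBounded.exists_norm_le
  have hfin : {σ : Fin s → ℚ | InC a₀ h₀ σ ∧ cst σ ∈ S ∧ ∃ c : Fin 1 → ℤ, c ≠ 0 ∧ (∀ j, |c j| ≤ (T : ℤ) ^ 0) ∧
      ∑ j, (c j : ℝ) * (fun (_ : Fin 1) (θ : Fin s → ℝ) => (aeval θ q : ℝ)) j (cst σ) = 0}.Finite := by
    refine (finite_box (a := a₀) hh₀ R).subset ?_
    rintro σ ⟨h1, h2, -⟩
    exact ⟨h1, fun i => (norm_le_pi_norm (cst σ) i).trans (hR _ h2)⟩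
  have hsub : {θ : Fin s → ℚ | InC a₀ h₀ θ ∧ cst θ ∈ S ∧ aeval (cst θ) q = (0 : ℝ)} ⊆
      {σ : Fin s → ℚ | InC a₀ h₀ σ ∧ cst σ ∈ S ∧ ∃ c : Fin 1 → ℤ, c ≠ 0 ∧ (∀ j, |c j| ≤ (T : ℤ) ^ 0) ∧
      ∑ j, (c j : ℝ) * (fun (_ : Fin 1) (θ : Fin s → ℝ) => (aeval θ q : ℝ)) j (cst σ) = 0} := by
    rintro θ ⟨h1, h2, h3⟩
    refine ⟨h1, h2, fun _ => 1, ?_, ?_, ?_⟩
    · intro h
      exact one_ne_zero (congrFun h 0)
    · intro j
      simp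
    · simp [h3]
  exact_mod_cast Set.ncard_le_ncard hsub hfin

private theorem l6_rat {s : ℕ} (q : MvPolynomial (Fin s) ℚ) (θ : Fin s → ℚ) :
    (aeval (cst θ) q : ℝ) = ((eval θ q : ℚ) : ℝ) := by
  have h'' := MvPolynomial.aeval_algebraMap_apply ℝ θ q
  have h3 : (⇑(algebraMap ℚ ℝ) ∘ θ : Fin s → ℝ) = cst θ := by
    funext j
    rfl
  rw [h3] at h''
  rw [h'']
  simp

/-- The exceptional points of a lattice in a compact set which avoids `z = 0`. -/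
theorem lat_rate {s : ℕ} {ι : Type} [Fintype ι] {z : MvPolynomial (Fin s) ℚ} (hz : z ≠ 0)
    {e : ι → Fin s → ℚ} (hE : ∀ θ : Fin s → ℝ, aeval θ z ≠ 0 → ∃ i, θ ∈ Om z (e i))
    {δ : ι → MvPolynomial (Fin s) ℚ} (hδ : ∀ i, δ i ≠ 0) {r : ι → ℕ} {V' : (i : ι) → Fin (r i) → (Fin s → ℝ) → ℝ}
    (A₁ : ι → ℕ) (han : ∀ i j, AnalyticOnNhd ℝ (V' i j) (Om z (e i)))
    (hI : ∀ i, ∀ P : Fin (r i) → MvPolynomial (Fin s) ℚ,
      (∀ θ ∈ Om z (e i), ∑ j, aeval θ (P j) * V' i j θ = 0) → ∀ j, P j = 0)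
    {S : Set (Fin s → ℝ)} (hSc : IsCompact S) (hSz : ∀ θ ∈ S, aeval θ z ≠ 0) :
    ∃ C η : ℝ, 0 < C ∧ 0 < η ∧ ∀ T : ℕ, 1 ≤ T → ∀ D : Fin s → ℕ, (∀ i, T ≤ D i) → ∀ B : Set (Fin s → ℚ),
      (∀ θ ∈ B, InLattice D θ ∧ cst θ ∈ S ∧ ∀ i, cst θ ∈ Om z (e i) → eval θ (δ i) ≠ 0 →
        ∃ cc : Fin (r i) → ℤ, cc ≠ 0 ∧ (∀ j, |cc j| ≤ (T : ℤ) ^ A₁ i) ∧ ∑ j, (cc j : ℝ) * V' i j (cst θ) = 0) →
      (B.ncard : ℝ) ≤ C * (T : ℝ) ^ (-η) * ∏ i, (D i : ℝ) := by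
  classical
  rcases Nat.eq_zero_or_pos s with hs | hs
  · subst hs
    refine ⟨1, 1, one_pos, one_pos, fun T hT D hD B hB => ?_⟩
    have hne : B = ∅ := by
      by_contra hne
      obtain ⟨θ, hθ⟩ := Set.nonempty_iff_ne_empty.2 hne
      obtain ⟨-, -, hR⟩ := hB θ hθ
      have hz1 : aeval (cst θ) z ≠ 0 := by
        rw [l6_rat]
        intro h
        apply hz
        rw [MvPolynomial.eq_C_of_isEmpty z] at h ⊢
        rw [MvPolynomial.eval_C] at h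
        rw [Rat.cast_eq_zero.1 h, map_zero]
      obtain ⟨i, hi⟩ := hE (cst θ) hz1
      have hd : eval θ (δ i) ≠ 0 := by
        intro h
        apply hδ i
        rw [MvPolynomial.eq_C_of_isEmpty (δ i), MvPolynomial.eval_C] at h
        rw [MvPolynomial.eq_C_of_isEmpty (δ i), h, map_zero]
      obtain ⟨cc, hcc, -, hsum⟩ := hR i hi hd
      apply hcc
      funext j
      have h := hI i (fun j => C (cc j : ℚ)) (by
        intro θ' _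
        rw [Subsingleton.elim θ' (cst θ)]
        rw [← hsum]
        apply Finset.sum_congr rfl
        intro j _
        rw [MvPolynomial.aeval_C]
        simp) j
      have h' : (cc j : ℚ) = 0 := by
        have h'' := congrArg (coeff 0) h
        rwa [coeff_zero_C, coeff_zero] at h''
      exact_mod_cast h'
    rw [hne, Set.ncard_empty, Nat.cast_zero]
    positivity
  · have hfew := fun i => few_relL hs hSc hSz (han i) (hI i) (A₁ i)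
    choose C η hC hη hbd using hfew
    have hzer := fun i => few_zerosL hs (hδ i) hSc
    choose C' η' hC' hη' hbd' using hzer
    obtain ⟨η₀, hη₀def⟩ : ∃ η₀ : ℝ, η₀ = ∏ i, min (min (η i) (η' i)) 1 := ⟨_, rfl⟩
    have hm0 : ∀ i, 0 < min (min (η i) (η' i)) 1 := fun i => lt_min (lt_min (hη i) (hη' i)) one_pos
    have hη₀ : 0 < η₀ := by
      rw [hη₀def]
      exact Finset.prod_pos fun i _ => hm0 i
    have hη₂ : ∀ i, η₀ ≤ min (η i) (η' i) := by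
      intro i
      rw [hη₀def, ← Finset.mul_prod_erase Finset.univ _ (Finset.mem_univ i)]
      calc min (min (η i) (η' i)) 1 * ∏ j ∈ Finset.univ.erase i, min (min (η j) (η' j)) 1
          ≤ min (min (η i) (η' i)) 1 * 1 := by
            refine mul_le_mul_of_nonneg_left ?_ (hm0 i).le
            exact Finset.prod_le_one (fun i _ => (hm0 i).le) fun i _ => min_le_right _ _
        _ ≤ min (η i) (η' i) := by
            rw [mul_one]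
            exact min_le_left _ _
    have h1 : 0 ≤ ∑ i, C' i := Finset.sum_nonneg fun i _ => (hC' i).le
    have h2 : 0 ≤ ∑ i, C i := Finset.sum_nonneg fun i _ => (hC i).le
    refine ⟨∑ i, C' i + ∑ i, C i + 1, η₀, by positivity, hη₀, fun T hT D hD B hB => ?_⟩
    have hT1 : (1 : ℝ) ≤ T := by exact_mod_cast hT
    have hTpos : (0 : ℝ) < T := lt_of_lt_of_le one_pos hT1
    obtain ⟨Q, h, hh, hQ, hcov⟩ := coset_cover hT D hD
    obtain ⟨R, hR⟩ := hSc.isBounded.exists_norm_le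
    set U₁ : (Fin s → ℚ) → ι → Set (Fin s → ℚ) := fun a i => {θ | InC a h θ ∧ cst θ ∈ S ∧ aeval (cst θ) (δ i) = (0 : ℝ)}
      with hU₁
    set U₂ : (Fin s → ℚ) → ι → Set (Fin s → ℚ) := fun a i => {θ | InC a h θ ∧ cst θ ∈ S ∩ Om z (e i) ∧
        ∃ cc : Fin (r i) → ℤ, cc ≠ 0 ∧ (∀ j, |cc j| ≤ (T : ℤ) ^ A₁ i) ∧ ∑ j, (cc j : ℝ) * V' i j (cst θ) = 0}
      with hU₂
    have hfin : ∀ a, ((⋃ i, U₁ a i) ∪ ⋃ i, U₂ a i).Finite := by
      intro a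
      refine (finite_box (a := a) hh R).subset ?_
      rintro θ (h | h)
      · obtain ⟨i, hi⟩ := Set.mem_iUnion.1 h
        exact ⟨hi.1, fun i => (norm_le_pi_norm (cst θ) i).trans (hR _ hi.2.1)⟩
      · obtain ⟨i, hi⟩ := Set.mem_iUnion.1 h
        exact ⟨hi.1, fun i => (norm_le_pi_norm (cst θ) i).trans (hR _ hi.2.1.1)⟩
    have hsub : B ⊆ ⋃ a ∈ Q, ((⋃ i, U₁ a i) ∪ ⋃ i, U₂ a i) := by
      intro θ hθ
      obtain ⟨hH, hθS, hR⟩ := hB θ hθ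
      obtain ⟨a, haQ, ha⟩ := hcov θ hH
      obtain ⟨i, hi⟩ := hE (cst θ) (hSz _ hθS)
      refine Set.mem_iUnion₂.2 ⟨a, haQ, ?_⟩
      by_cases hd : eval θ (δ i) = 0
      · left
        refine Set.mem_iUnion.2 ⟨i, ha, hθS, ?_⟩
        rw [l6_rat, hd, Rat.cast_zero]
      · exact Or.inr (Set.mem_iUnion.2 ⟨i, ha, ⟨hθS, hi⟩, hR i hi hd⟩)
    have hone : ∀ a ∈ Q, (((((⋃ i, U₁ a i) ∪ ⋃ i, U₂ a i)).ncard : ℕ) : ℝ) ≤
        (∑ i, C' i + ∑ i, C i) * (T : ℝ) ^ ((s : ℝ) - η₀) := by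
      intro a _
      have hc1 : ((⋃ i, U₁ a i) ∪ ⋃ i, U₂ a i).ncard ≤ ∑ i, (U₁ a i).ncard + ∑ i, (U₂ a i).ncard := by
        refine (Set.ncard_union_le _ _).trans ?_
        exact Nat.add_le_add (Set.ncard_iUnion_le_of_fintype (U₁ a)) (Set.ncard_iUnion_le_of_fintype (U₂ a))
      have hc2 : (((((⋃ i, U₁ a i) ∪ ⋃ i, U₂ a i)).ncard : ℕ) : ℝ) ≤ ∑ i, ((U₁ a i).ncard : ℝ) + ∑ i, ((U₂ a i).ncard : ℝ) := by
        exact_mod_cast hc1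
      have hk1 : ∑ i, ((U₁ a i).ncard : ℝ) ≤ (∑ i, C' i) * (T : ℝ) ^ ((s : ℝ) - η₀) := by
        rw [Finset.sum_mul]
        refine Finset.sum_le_sum fun i _ => (hbd' i T hT a h hh).trans ?_
        refine mul_le_mul_of_nonneg_left ?_ (hC' i).le
        exact Real.rpow_le_rpow_of_exponent_le hT1 (by linarith [hη₂ i, min_le_right (η i) (η' i)])
      have hk2 : ∑ i, ((U₂ a i).ncard : ℝ) ≤ (∑ i, C i) * (T : ℝ) ^ ((s : ℝ) - η₀) := by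
        rw [Finset.sum_mul]
        refine Finset.sum_le_sum fun i _ => (hbd i T hT a h hh).trans ?_
        refine mul_le_mul_of_nonneg_left ?_ (hC i).le
        exact Real.rpow_le_rpow_of_exponent_le hT1 (by linarith [hη₂ i, min_le_left (η i) (η' i)])
      calc _ ≤ _ := hc2
        _ ≤ (∑ i, C' i) * (T : ℝ) ^ ((s : ℝ) - η₀) + (∑ i, C i) * (T : ℝ) ^ ((s : ℝ) - η₀) := add_le_add hk1 hk2
        _ = _ := by ring
    have hfin2 : (⋃ a ∈ Q, ((⋃ i, U₁ a i) ∪ ⋃ i, U₂ a i)).Finite := Q.finite_toSet.biUnion fun a _ => hfin a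
    have hcard : (B.ncard : ℝ) ≤ ∑ a ∈ Q, (((((⋃ i, U₁ a i) ∪ ⋃ i, U₂ a i)).ncard : ℕ) : ℝ) := by
      have h3 : B.ncard ≤ ∑ a ∈ Q, ((⋃ i, U₁ a i) ∪ ⋃ i, U₂ a i).ncard :=
        (Set.ncard_le_ncard hsub hfin2).trans (Finset.set_ncard_biUnion_le Q _)
      exact_mod_cast h3
    calc (B.ncard : ℝ) ≤ ∑ a ∈ Q, (((((⋃ i, U₁ a i) ∪ ⋃ i, U₂ a i)).ncard : ℕ) : ℝ) := hcard
      _ ≤ ∑ _a ∈ Q, (∑ i, C' i + ∑ i, C i) * (T : ℝ) ^ ((s : ℝ) - η₀) := Finset.sum_le_sum hone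
      _ = (∑ i, C' i + ∑ i, C i) * (T : ℝ) ^ (-η₀) * ((Q.card : ℝ) * (T : ℝ) ^ s) := by
          rw [Finset.sum_const, nsmul_eq_mul, sub_eq_add_neg, Real.rpow_add hTpos, Real.rpow_natCast]
          ring
      _ ≤ (∑ i, C' i + ∑ i, C i) * (T : ℝ) ^ (-η₀) * ∏ i, (D i : ℝ) := by
          refine mul_le_mul_of_nonneg_left hQ ?_
          have := Real.rpow_pos_of_pos hTpos (-η₀)
          positivity
      _ ≤ (∑ i, C' i + ∑ i, C i + 1) * (T : ℝ) ^ (-η₀) * ∏ i, (D i : ℝ) := by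
          have h4 := Real.rpow_pos_of_pos hTpos (-η₀)
          have h5 : 0 ≤ ∏ i, (D i : ℝ) := Finset.prod_nonneg fun i _ => Nat.cast_nonneg _
          refine mul_le_mul_of_nonneg_right (mul_le_mul_of_nonneg_right ?_ h4.le) h5
          linarith

/-- The points of a lattice in a box near the hypersurface `z = 0`. -/
theorem lat_near {s : ℕ} {z : MvPolynomial (Fin s) ℚ} (hz : z ≠ 0) {R : ℕ} (hR1 : 1 ≤ R) {ε : ℝ} (hε : 0 < ε) :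
    ∃ ε' : ℝ, 0 < ε' ∧ ∃ T₀ : ℕ, ∀ T : ℕ, T₀ ≤ T → ∀ D : Fin s → ℕ, (∀ i, T ≤ D i) →
      ({θ : Fin s → ℚ | InLattice D θ ∧ (∀ i, |(θ i : ℝ)| ≤ R) ∧ |aeval (cst θ) z| < ε'}.ncard : ℝ) ≤ ε * ∏ i, (D i : ℝ) := by
  classical
  obtain ⟨ε', hε', T₀, H⟩ := dens_L hz hR1 hε
  refine ⟨ε', hε', max 1 T₀, fun T hT D hD => ?_⟩
  have hT1 : 1 ≤ T := (le_max_left _ _).trans hT
  have hT0 : T₀ ≤ T := (le_max_right _ _).trans hT
  obtain ⟨Q, h, hh, hQ, hcov⟩ := coset_cover hT1 D hD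
  have hsub : {θ : Fin s → ℚ | InLattice D θ ∧ (∀ i, |(θ i : ℝ)| ≤ R) ∧ |aeval (cst θ) z| < ε'} ⊆
      ⋃ a ∈ Q, {θ : Fin s → ℚ | InC a h θ ∧ (∀ i, |(θ i : ℝ)| ≤ R) ∧ |aeval (cst θ) z| < ε'} := by
    rintro θ ⟨h1, h2⟩
    obtain ⟨a, haQ, ha⟩ := hcov θ h1
    exact Set.mem_iUnion₂.2 ⟨a, haQ, ha, h2⟩
  have hfin : (⋃ a ∈ Q, {θ : Fin s → ℚ | InC a h θ ∧ (∀ i, |(θ i : ℝ)| ≤ R) ∧ |aeval (cst θ) z| < ε'}).Finite := by
    refine Q.finite_toSet.biUnion fun a _ => ?_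
    refine (finite_box (a := a) hh R).subset ?_
    rintro θ ⟨h1, h2, -⟩
    exact ⟨h1, h2⟩
  have h3 : {θ : Fin s → ℚ | InLattice D θ ∧ (∀ i, |(θ i : ℝ)| ≤ R) ∧ |aeval (cst θ) z| < ε'}.ncard ≤
      ∑ a ∈ Q, {θ : Fin s → ℚ | InC a h θ ∧ (∀ i, |(θ i : ℝ)| ≤ R) ∧ |aeval (cst θ) z| < ε'}.ncard :=
    (Set.ncard_le_ncard hsub hfin).trans (Finset.set_ncard_biUnion_le Q _)
  calc ({θ : Fin s → ℚ | InLattice D θ ∧ (∀ i, |(θ i : ℝ)| ≤ R) ∧ |aeval (cst θ) z| < ε'}.ncard : ℝ)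
      ≤ ∑ a ∈ Q, (({θ : Fin s → ℚ | InC a h θ ∧ (∀ i, |(θ i : ℝ)| ≤ R) ∧ |aeval (cst θ) z| < ε'}.ncard : ℕ) : ℝ) := by
        exact_mod_cast h3
    _ ≤ ∑ _a ∈ Q, ε * (T : ℝ) ^ s := Finset.sum_le_sum fun a _ => H T hT0 a h hh
    _ = ε * ((Q.card : ℝ) * (T : ℝ) ^ s) := by
        rw [Finset.sum_const, nsmul_eq_mul]
        ring
    _ ≤ ε * ∏ i, (D i : ℝ) := mul_le_mul_of_nonneg_left hQ hε.le

end Pool.Agent.Lib.MP_bbe012_lc.PL
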