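import Pool.Agent.Lib.MP_bbe012_lc.PL.L6
import Pool.Agent.Lib.MP_bbe012_lc.PN.FzA
import Pool.Agent.Lib.MP_bbe012_lc.PN.FzB
import Pool.Agent.Lib.MP_bbe012_lc.PN.CVal
import Pool.Agent.Lib.MP_bbe012_lc.PN.CRep
import Pool.Agent.Lib.MP_bbe012_lc.PN.GI
import Pool.Agent.Lib.MP_bbe012_lc.PN.PB
import Pool.Agent.Lib.MP_bbe012_lc.PN.Nv
import Pool.Agent.Lib.MP_bbe012_lc.PN.Fb
import Pool.Agent.Lib.MP_bbe012_lc.PM.Cc
import Pool.Agent.Lib.MP_bbe012_lc.PM.Dens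
import Pool.Agent.Lib.MP_bbe012_lc.PG.DHt

/-!
# Almost all supports, ordered by height, in lattices, and with integer coefficients: assembly
-/

namespace Pool.Agent.Lib.MP_bbe012_lc.PL

open MvPolynomial MeasureTheory Set PP PG PM PN Filter Topology

theorem Bdd.mono {A A' T T' q : ℕ} (hT : 1 ≤ T') (hA : A ≤ A') (h : T ≤ T') {a : ℚ} (ha : Bdd A T q a) : Bdd A' T' q a := by
  refine ⟨ha.1.trans ?_, ha.2⟩
  have h1 : (T : ℚ) ≤ (T' : ℚ) := by exact_mod_cast h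
  have h2 : (1 : ℚ) ≤ (T' : ℚ) := by exact_mod_cast hT
  exact (pow_le_pow_left₀ (by positivity) h1 A).trans (pow_le_pow_right₀ h2 hA)

theorem InN.mono {s μ : ℕ} {F : Fin μ → Sup s} {A T T' : ℕ} (hT : 1 ≤ T') (h : T ≤ T') {θ : Fin s → ℚ} {x : PCode × List PeriodCode}
    (hx : InN F A T θ x) : InN F A T' θ x := by
  obtain ⟨h1, h2, h3, q, hq1, hq2, h4, h5⟩ := hx
  have hI : ∀ {k : Fin μ} {I : IntCode}, ItemN (F k) A T q θ I → ItemN (F k) A T' q θ I := by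
    rintro k I ⟨a1, ⟨c, κ, a2, a3, a4⟩, a5, a6⟩
    exact ⟨a1, ⟨c, κ, a2, a3, fun u => Bdd.mono hT le_rfl h (a4 u)⟩, a5, a6⟩
  refine ⟨h1, h2.trans (Nat.pow_le_pow_left h A), h3, q, hq1, hq2.trans (Nat.pow_le_pow_left h A),
    fun u => Bdd.mono hT le_rfl h (h4 u), fun X hX => ?_⟩
  obtain ⟨⟨k, hk⟩, l, hl⟩ := h5 X hX
  exact ⟨⟨k, hI hk⟩, l, hI hl⟩

private theorem fz_fin {s : ℕ} (T : ℕ) : {θ : Fin s → ℚ | ∀ i, HLE T (θ i)}.Finite :=
  Set.Finite.pi' (t := fun _ : Fin s => {a : ℚ | HLE T a}) fun _ => finite_HLE T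

/-- The density of the exceptional parameters is zero, case of at least one parameter. -/
private theorem fz_pos {s : ℕ} (hs : 0 < s) {ι : Type} [Fintype ι] {z : MvPolynomial (Fin s) ℚ} (hz : z ≠ 0)
    {e : ι → Fin s → ℚ} (hE : ∀ θ : Fin s → ℝ, aeval θ z ≠ 0 → ∃ i, θ ∈ Om z (e i))
    {δ : ι → MvPolynomial (Fin s) ℚ} (hδ : ∀ i, δ i ≠ 0) {r : ι → ℕ} {V' : (i : ι) → Fin (r i) → (Fin s → ℝ) → ℝ}
    (A₃ : ι → ℕ) (han : ∀ i j, AnalyticOnNhd ℝ (V' i j) (Om z (e i)))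
    (hI : ∀ i, ∀ P : Fin (r i) → MvPolynomial (Fin s) ℚ,
      (∀ θ ∈ Om z (e i), ∑ j, aeval θ (P j) * V' i j θ = 0) → ∀ j, P j = 0)
    (B : ℕ → Set (Fin s → ℚ))
    (hB : ∀ T, 2 ≤ T → ∀ θ ∈ B T, (∀ i, HLE T (θ i)) ∧ ∀ i, cst θ ∈ Om z (e i) → eval θ (δ i) ≠ 0 →
      ∃ cc : Fin (r i) → ℤ, cc ≠ 0 ∧ (∀ j, |cc j| ≤ (T : ℤ) ^ A₃ i) ∧ ∑ j, (cc j : ℝ) * V' i j (cst θ) = 0) :
    Tendsto (fun T : ℕ => ((B T).ncard : ℝ) / ({θ : Fin s → ℚ | ∀ i, HLE T (θ i)}.ncard : ℝ)) atTop (𝓝 0) := by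
  classical
  obtain ⟨c, T₁, hc, hmany⟩ := many_pts (s := s) (S := Set.univ) (by simp)
  have hz' : z * ∏ i, δ i ≠ 0 := mul_ne_zero hz (Finset.prod_ne_zero_iff.2 fun i _ => hδ i)
  rw [Metric.tendsto_atTop]
  intro ε hε
  obtain ⟨S, hSc, hSz, T₀, hT₀⟩ := dens hs hz' (half_pos hε)
  have hSz1 : ∀ θ ∈ S, aeval θ z ≠ 0 := by
    intro θ hθ h
    apply hSz θ hθ
    rw [map_mul, h, zero_mul]
  have hSz2 : ∀ θ ∈ S, ∀ i, aeval θ (δ i) ≠ 0 := by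
    intro θ hθ i h
    apply hSz θ hθ
    rw [map_mul, map_prod, Finset.prod_eq_zero (Finset.mem_univ i) h, mul_zero]
  have hfew := fun i => few_rel hs hSc hSz1 (han i) (hI i) (A₃ i)
  choose C η hC hη hbd using hfew
  have hlim : Tendsto (fun T : ℕ => ∑ i, C i / c * (T : ℝ) ^ (-η i)) atTop (𝓝 0) := by
    have h0 : (0 : ℝ) = ∑ i : ι, C i / c * 0 := by simp
    rw [h0]
    apply tendsto_finsetSum
    intro i _
    exact ((tendsto_rpow_neg_atTop (hη i)).comp tendsto_natCast_atTop_atTop).const_mul _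
  obtain ⟨T₂, hT₂⟩ := (Metric.tendsto_atTop.1 hlim) (ε / 2) (half_pos hε)
  refine ⟨max (max T₀ T₁) (max T₂ 2), fun T hT => ?_⟩
  have h0 : T₀ ≤ T := le_trans (le_trans (le_max_left _ _) (le_max_left _ _)) hT
  have h1 : T₁ ≤ T := le_trans (le_trans (le_max_right _ _) (le_max_left _ _)) hT
  have h2 : T₂ ≤ T := le_trans (le_trans (le_max_left _ _) (le_max_right _ _)) hT
  have h3 : 2 ≤ T := le_trans (le_trans (le_max_right _ _) (le_max_right _ _)) hT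
  have hTpos : (0 : ℝ) < T := by
    have : 0 < T := by omega
    exact_mod_cast this
  set N : ℝ := ({θ : Fin s → ℚ | ∀ i, HLE T (θ i)}.ncard : ℝ) with hN
  have hN1 : c * (T : ℝ) ^ (2 * (s : ℝ)) ≤ N := by
    have h := hmany T h1
    have hset : {θ : Fin s → ℚ | (∀ i, HLE T (θ i)) ∧ (fun i => (θ i : ℝ)) ∈ (Set.univ : Set (Fin s → ℝ))} =
        {θ : Fin s → ℚ | ∀ i, HLE T (θ i)} := by
      ext θ
      simp
    rw [hset] at h
    exact h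
  have hpow : (0 : ℝ) < (T : ℝ) ^ (2 * (s : ℝ)) := Real.rpow_pos_of_pos hTpos _
  have hN0 : 0 < N := lt_of_lt_of_le (mul_pos hc hpow) hN1
  have hcount : ((B T).ncard : ℝ) ≤ ε / 2 * N + ∑ i, C i * (T : ℝ) ^ (2 * (s : ℝ) - η i) := by
    set U₁ : Set (Fin s → ℚ) := {θ | (∀ i, HLE T (θ i)) ∧ cst θ ∉ S} with hU₁
    set U₂ : ι → Set (Fin s → ℚ) := fun i => {θ | (∀ i, HLE T (θ i)) ∧ cst θ ∈ S ∩ Om z (e i) ∧
        ∃ cc : Fin (r i) → ℤ, cc ≠ 0 ∧ (∀ j, |cc j| ≤ (T : ℤ) ^ A₃ i) ∧ ∑ j, (cc j : ℝ) * V' i j (cst θ) = 0}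
      with hU₂
    have hsub : B T ⊆ U₁ ∪ ⋃ i, U₂ i := by
      intro θ hθ
      obtain ⟨hH, hR⟩ := hB T h3 θ hθ
      by_cases hθS : cst θ ∈ S
      · right
        obtain ⟨i, hi⟩ := hE (cst θ) (hSz1 _ hθS)
        have hd : eval θ (δ i) ≠ 0 := by
          intro h
          apply hSz2 _ hθS i
          have h' : aeval (cst θ) (δ i) = ((eval θ (δ i) : ℚ) : ℝ) := by
            have h'' := MvPolynomial.aeval_algebraMap_apply ℝ θ (δ i)
            have h3 : (⇑(algebraMap ℚ ℝ) ∘ θ : Fin s → ℝ) = cst θ := by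
              funext j
              rfl
            rw [h3] at h''
            rw [h'']
            simp
          rw [h', h, Rat.cast_zero]
        exact Set.mem_iUnion.2 ⟨i, hH, ⟨hθS, hi⟩, hR i hi hd⟩
      · exact Or.inl ⟨hH, hθS⟩
    have hfin : (U₁ ∪ ⋃ i, U₂ i).Finite := by
      refine (fz_fin (s := s) T).subset ?_
      rintro θ (h | h)
      · exact h.1
      · obtain ⟨i, hi⟩ := Set.mem_iUnion.1 h
        exact hi.1
    have hc1 : (B T).ncard ≤ U₁.ncard + ∑ i, (U₂ i).ncard := by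
      refine (Set.ncard_le_ncard hsub hfin).trans ((Set.ncard_union_le _ _).trans ?_)
      exact Nat.add_le_add_left (Set.ncard_iUnion_le_of_fintype U₂) _
    have hc2 : ((B T).ncard : ℝ) ≤ (U₁.ncard : ℝ) + ∑ i, ((U₂ i).ncard : ℝ) := by exact_mod_cast hc1
    refine hc2.trans (add_le_add (hT₀ T h0) (Finset.sum_le_sum fun i _ => hbd i T (by omega)))
  have hq : ((B T).ncard : ℝ) / N ≤ ε / 2 + ∑ i, C i / c * (T : ℝ) ^ (-η i) := by
    rw [div_le_iff₀ hN0]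
    refine hcount.trans ?_
    rw [add_mul, Finset.sum_mul]
    refine add_le_add le_rfl (Finset.sum_le_sum fun i _ => ?_)
    have hTi : (0 : ℝ) < (T : ℝ) ^ (-η i) := Real.rpow_pos_of_pos hTpos _
    have hsplit : (T : ℝ) ^ (2 * (s : ℝ) - η i) = (T : ℝ) ^ (-η i) * (T : ℝ) ^ (2 * (s : ℝ)) := by
      rw [← Real.rpow_add hTpos]
      ring_nf
    rw [hsplit]
    calc C i * ((T : ℝ) ^ (-η i) * (T : ℝ) ^ (2 * (s : ℝ)))
        = C i / c * (T : ℝ) ^ (-η i) * (c * (T : ℝ) ^ (2 * (s : ℝ))) := by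
          field_simp
      _ ≤ C i / c * (T : ℝ) ^ (-η i) * N :=
          mul_le_mul_of_nonneg_left hN1 (mul_nonneg (div_nonneg (hC i).le hc.le) hTi.le)
  have hsum : ∑ i, C i / c * (T : ℝ) ^ (-η i) < ε / 2 := by
    have h := hT₂ T h2
    rw [Real.dist_eq, sub_zero] at h
    exact lt_of_le_of_lt (le_abs_self _) h
  rw [Real.dist_eq, sub_zero, abs_of_nonneg (div_nonneg (Nat.cast_nonneg _) hN0.le)]
  linarith

/-- Without parameters there are no exceptional parameters. -/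
private theorem fz_zero {ι : Type} {z : MvPolynomial (Fin 0) ℚ} (hz : z ≠ 0)
    {e : ι → Fin 0 → ℚ} (hE : ∀ θ : Fin 0 → ℝ, aeval θ z ≠ 0 → ∃ i, θ ∈ Om z (e i))
    {δ : ι → MvPolynomial (Fin 0) ℚ} (hδ : ∀ i, δ i ≠ 0) {r : ι → ℕ} {V' : (i : ι) → Fin (r i) → (Fin 0 → ℝ) → ℝ}
    (A₃ : ι → ℕ)
    (hI : ∀ i, ∀ P : Fin (r i) → MvPolynomial (Fin 0) ℚ,
      (∀ θ ∈ Om z (e i), ∑ j, aeval θ (P j) * V' i j θ = 0) → ∀ j, P j = 0)
    (B : ℕ → Set (Fin 0 → ℚ))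
    (hB : ∀ T, 2 ≤ T → ∀ θ ∈ B T, (∀ i, HLE T (θ i)) ∧ ∀ i, cst θ ∈ Om z (e i) → eval θ (δ i) ≠ 0 →
      ∃ cc : Fin (r i) → ℤ, cc ≠ 0 ∧ (∀ j, |cc j| ≤ (T : ℤ) ^ A₃ i) ∧ ∑ j, (cc j : ℝ) * V' i j (cst θ) = 0) :
    ∀ T, 2 ≤ T → B T = ∅ := by
  intro T hT
  by_contra hne
  obtain ⟨θ, hθ⟩ := Set.nonempty_iff_ne_empty.2 hne
  obtain ⟨-, hR⟩ := hB T hT θ hθ
  have hz1 : aeval (cst θ) z ≠ 0 := by
    rw [MvPolynomial.eq_C_of_isEmpty z, MvPolynomial.aeval_C]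
    intro h
    apply hz
    rw [MvPolynomial.eq_C_of_isEmpty z]
    have h' : ((coeff 0 z : ℚ) : ℝ) = 0 := h
    rw [Rat.cast_eq_zero.1 h', map_zero]
  obtain ⟨i, hi⟩ := hE (cst θ) hz1
  have hd : eval θ (δ i) ≠ 0 := by
    intro h
    apply hδ i
    rw [MvPolynomial.eq_C_of_isEmpty (δ i), MvPolynomial.eval_C] at h
    rw [MvPolynomial.eq_C_of_isEmpty (δ i), h, map_zero]
  obtain ⟨cc, hcc, -, hsum⟩ := hR i hi hd
  apply hcc
  funext j
  have h := hI i (fun j => C (cc j : ℚ)) (by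
    intro θ' _
    rw [Subsingleton.elim θ' (cst θ)]
    rw [← hsum]
    apply Finset.sum_congr rfl
    intro j _
    rw [MvPolynomial.aeval_C]
    simp) j
  have h' : (cc j : ℚ) = 0 := by
    have h'' := congrArg (coeff 0) h
    rwa [coeff_zero_C, coeff_zero] at h''
  exact_mod_cast h'

/-- Few exceptional parameters in a compact set which avoids `z = 0`. -/
private theorem fz_rate {s : ℕ} {ι : Type} [Fintype ι] {z : MvPolynomial (Fin s) ℚ} (hz : z ≠ 0)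
    {e : ι → Fin s → ℚ} (hE : ∀ θ : Fin s → ℝ, aeval θ z ≠ 0 → ∃ i, θ ∈ Om z (e i))
    {δ : ι → MvPolynomial (Fin s) ℚ} (hδ : ∀ i, δ i ≠ 0) {r : ι → ℕ} {V' : (i : ι) → Fin (r i) → (Fin s → ℝ) → ℝ}
    (A₃ : ι → ℕ) (han : ∀ i j, AnalyticOnNhd ℝ (V' i j) (Om z (e i)))
    (hI : ∀ i, ∀ P : Fin (r i) → MvPolynomial (Fin s) ℚ,
      (∀ θ ∈ Om z (e i), ∑ j, aeval θ (P j) * V' i j θ = 0) → ∀ j, P j = 0)
    (B : ℕ → Set (Fin s → ℚ))
    (hB : ∀ T, 2 ≤ T → ∀ θ ∈ B T, (∀ i, HLE T (θ i)) ∧ ∀ i, cst θ ∈ Om z (e i) → eval θ (δ i) ≠ 0 →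
      ∃ cc : Fin (r i) → ℤ, cc ≠ 0 ∧ (∀ j, |cc j| ≤ (T : ℤ) ^ A₃ i) ∧ ∑ j, (cc j : ℝ) * V' i j (cst θ) = 0)
    {S : Set (Fin s → ℝ)} (hSc : IsCompact S) (hSz : ∀ θ ∈ S, aeval θ z ≠ 0) :
    ∃ C η : ℝ, 0 < C ∧ 0 < η ∧ ∀ T : ℕ, 1 ≤ T →
      ({θ ∈ B T | cst θ ∈ S}.ncard : ℝ) ≤ C * (T : ℝ) ^ (2 * (s : ℝ) - η) := by
  classical
  rcases Nat.eq_zero_or_pos s with hs | hs
  · subst hs
    have h0 := fz_zero hz hE hδ A₃ hI _ hB
    refine ⟨({θ ∈ B 1 | cst θ ∈ S}.ncard : ℝ) + 1, 1, by positivity, one_pos, fun T hT => ?_⟩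
    rcases Nat.lt_or_ge T 2 with h2 | h2
    · obtain rfl : T = 1 := by omega
      rw [Nat.cast_one, Real.one_rpow, mul_one]
      linarith
    · have h3 : {θ ∈ B T | cst θ ∈ S} = (∅ : Set (Fin 0 → ℚ)) := by
        rw [h0 T h2]
        ext θ
        simp
      rw [h3, Set.ncard_empty, Nat.cast_zero]
      positivity
  · have hfew := fun i => few_rel hs hSc hSz (han i) (hI i) (A₃ i)
    choose C η hC hη hbd using hfew
    have hzer := fun i => few_zeros hs (hδ i)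
    choose C' hC' hbd' using hzer
    obtain ⟨η₀, hη₀def⟩ : ∃ η₀ : ℝ, η₀ = ∏ i, min (η i) 1 := ⟨_, rfl⟩
    have hη₀ : 0 < η₀ := by
      rw [hη₀def]
      exact Finset.prod_pos fun i _ => lt_min (hη i) one_pos
    have hη₁ : η₀ ≤ 1 := by
      rw [hη₀def]
      exact Finset.prod_le_one (fun i _ => (lt_min (hη i) one_pos).le) fun i _ => min_le_right _ _
    have hη₂ : ∀ i, η₀ ≤ η i := by
      intro i
      rw [hη₀def, ← Finset.mul_prod_erase Finset.univ _ (Finset.mem_univ i)]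
      calc min (η i) 1 * ∏ j ∈ Finset.univ.erase i, min (η j) 1 ≤ min (η i) 1 * 1 := by
            refine mul_le_mul_of_nonneg_left ?_ (lt_min (hη i) one_pos).le
            exact Finset.prod_le_one (fun i _ => (lt_min (hη i) one_pos).le) fun i _ => min_le_right _ _
        _ ≤ η i := by
            rw [mul_one]
            exact min_le_left _ _
    refine ⟨∑ i, C' i + ∑ i, C i + (({θ ∈ B 1 | cst θ ∈ S}.ncard : ℝ) + 1), η₀, ?_, hη₀, fun T hT => ?_⟩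
    · have h1 : 0 ≤ ∑ i, C' i := Finset.sum_nonneg fun i _ => (hC' i).le
      have h2 : 0 ≤ ∑ i, C i := Finset.sum_nonneg fun i _ => (hC i).le
      positivity
    have h1 : 0 ≤ ∑ i, C' i := Finset.sum_nonneg fun i _ => (hC' i).le
    have h2 : 0 ≤ ∑ i, C i := Finset.sum_nonneg fun i _ => (hC i).le
    rcases Nat.lt_or_ge T 2 with h3 | h3
    · obtain rfl : T = 1 := by omega
      rw [Nat.cast_one, Real.one_rpow, mul_one]
      linarith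
    have hT1 : (1 : ℝ) ≤ T := by exact_mod_cast hT
    have hTpos : (0 : ℝ) < T := lt_of_lt_of_le one_pos hT1
    set U₁ : ι → Set (Fin s → ℚ) := fun i => {θ | (∀ i, HLE T (θ i)) ∧ aeval θ (δ i) = 0} with hU₁
    set U₂ : ι → Set (Fin s → ℚ) := fun i => {θ | (∀ i, HLE T (θ i)) ∧ cst θ ∈ S ∩ Om z (e i) ∧
        ∃ cc : Fin (r i) → ℤ, cc ≠ 0 ∧ (∀ j, |cc j| ≤ (T : ℤ) ^ A₃ i) ∧ ∑ j, (cc j : ℝ) * V' i j (cst θ) = 0}
      with hU₂
    have hsub : {θ ∈ B T | cst θ ∈ S} ⊆ (⋃ i, U₁ i) ∪ ⋃ i, U₂ i := by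
      rintro θ ⟨hθ, hθS⟩
      obtain ⟨hH, hR⟩ := hB T h3 θ hθ
      obtain ⟨i, hi⟩ := hE (cst θ) (hSz _ hθS)
      by_cases hd : eval θ (δ i) = 0
      · left
        refine Set.mem_iUnion.2 ⟨i, hH, ?_⟩
        rw [MvPolynomial.aeval_eq_eval]
        exact hd
      · exact Or.inr (Set.mem_iUnion.2 ⟨i, hH, ⟨hθS, hi⟩, hR i hi hd⟩)
    have hfin : ((⋃ i, U₁ i) ∪ ⋃ i, U₂ i).Finite := by
      refine (fz_fin (s := s) T).subset ?_
      rintro θ (h | h)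
      · obtain ⟨i, hi⟩ := Set.mem_iUnion.1 h
        exact hi.1
      · obtain ⟨i, hi⟩ := Set.mem_iUnion.1 h
        exact hi.1
    have hc1 : {θ ∈ B T | cst θ ∈ S}.ncard ≤ ∑ i, (U₁ i).ncard + ∑ i, (U₂ i).ncard := by
      refine (Set.ncard_le_ncard hsub hfin).trans ((Set.ncard_union_le _ _).trans ?_)
      exact Nat.add_le_add (Set.ncard_iUnion_le_of_fintype U₁) (Set.ncard_iUnion_le_of_fintype U₂)
    have hc2 : ({θ ∈ B T | cst θ ∈ S}.ncard : ℝ) ≤ ∑ i, ((U₁ i).ncard : ℝ) + ∑ i, ((U₂ i).ncard : ℝ) := by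
      exact_mod_cast hc1
    have hP : (0 : ℝ) < (T : ℝ) ^ (2 * (s : ℝ) - η₀) := Real.rpow_pos_of_pos hTpos _
    have hk1 : ∑ i, ((U₁ i).ncard : ℝ) ≤ (∑ i, C' i) * (T : ℝ) ^ (2 * (s : ℝ) - η₀) := by
      rw [Finset.sum_mul]
      refine Finset.sum_le_sum fun i _ => (hbd' i T hT).trans ?_
      refine mul_le_mul_of_nonneg_left ?_ (hC' i).le
      exact Real.rpow_le_rpow_of_exponent_le hT1 (by linarith)
    have hk2 : ∑ i, ((U₂ i).ncard : ℝ) ≤ (∑ i, C i) * (T : ℝ) ^ (2 * (s : ℝ) - η₀) := by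
      rw [Finset.sum_mul]
      refine Finset.sum_le_sum fun i _ => (hbd i T hT).trans ?_
      refine mul_le_mul_of_nonneg_left ?_ (hC i).le
      exact Real.rpow_le_rpow_of_exponent_le hT1 (by linarith [hη₂ i])
    have hk3 : 0 ≤ (({θ ∈ B 1 | cst θ ∈ S}.ncard : ℝ) + 1) * (T : ℝ) ^ (2 * (s : ℝ) - η₀) := by positivity
    calc ({θ ∈ B T | cst θ ∈ S}.ncard : ℝ) ≤ ∑ i, ((U₁ i).ncard : ℝ) + ∑ i, ((U₂ i).ncard : ℝ) := hc2
      _ ≤ (∑ i, C' i) * (T : ℝ) ^ (2 * (s : ℝ) - η₀) + (∑ i, C i) * (T : ℝ) ^ (2 * (s : ℝ) - η₀) +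
          (({θ ∈ B 1 | cst θ ∈ S}.ncard : ℝ) + 1) * (T : ℝ) ^ (2 * (s : ℝ) - η₀) := by linarith
      _ = _ := by ring

private theorem l7_div {T : ℕ} (z : ℤ) (b : ℕ) (hb : 0 < b) (hz : z.natAbs ≤ T) (hbT : b ≤ T) :
    HLE T ((z : ℚ) / (b : ℚ)) := by
  have e : (z : ℚ) / (b : ℚ) = Rat.divInt z (b : ℤ) := by
    rw [Rat.divInt_eq_div]
    push_cast
    rfl
  rw [e]
  have hb' : (b : ℤ) ≠ 0 := by exact_mod_cast hb.ne'
  constructor
  · rcases eq_or_ne z 0 with rfl | h0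
    · rw [Rat.zero_divInt]
      simp
    · have h1 := Int.natAbs_dvd_natAbs.2 (Rat.num_dvd z hb')
      exact (Nat.le_of_dvd (Int.natAbs_pos.2 h0) h1).trans hz
  · have h1 := Rat.den_dvd z (b : ℤ)
    have h2 : (Rat.divInt z (b : ℤ)).den ∣ b := by exact_mod_cast h1
    exact (Nat.le_of_dvd hb h2).trans hbT

/-- The points of a lattice in a box have polynomial height. -/
private theorem l7_hle {T A R b : ℕ} (hT : 2 ≤ T) (hR : R ≤ 2 ^ b) {D : ℕ} (hD : 1 ≤ D) (hD2 : D ≤ T ^ A) {x : ℚ}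
    (hk : ∃ k : ℤ, (D : ℚ) * x = k) (hx : |(x : ℝ)| ≤ R) : HLE (T ^ (A + b)) x := by
  obtain ⟨k, hk⟩ := hk
  have hD0 : (0 : ℚ) < D := by exact_mod_cast hD
  have hx' : |x| ≤ (R : ℚ) := by
    have h1 : ((|x| : ℚ) : ℝ) ≤ ((R : ℚ) : ℝ) := by
      push_cast
      exact hx
    exact_mod_cast h1
  have e : x = (k : ℚ) / (D : ℚ) := by
    rw [eq_div_iff hD0.ne', mul_comm]
    exact hk
  have hpow : T ^ A * 2 ^ b ≤ T ^ (A + b) := by
    rw [pow_add]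
    exact Nat.mul_le_mul_left _ (Nat.pow_le_pow_left hT b)
  have hone : 1 ≤ 2 ^ b := Nat.one_le_two_pow
  rw [e]
  refine l7_div k D hD ?_ ?_
  · have h1 : ((k.natAbs : ℕ) : ℚ) ≤ (D : ℚ) * R := by
      rw [Nat.cast_natAbs, Int.cast_abs, ← hk, abs_mul, abs_of_pos hD0]
      exact mul_le_mul_of_nonneg_left hx' hD0.le
    have h2 : k.natAbs ≤ D * R := by exact_mod_cast h1
    exact h2.trans ((Nat.mul_le_mul hD2 hR).trans hpow)
  · refine hD2.trans (le_trans ?_ hpow)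
    exact Nat.le_mul_of_pos_right _ (by omega)

/-- One algorithm; the exceptional parameters ordered by height, and in lattices.

Proof: that of `targetX` (PN/Fz.lean), and `lat_rate`, `lat_near` (PL/L6.lean) with `complete_one` for the height `T ^ (A + b)`. -/
theorem targetL {s μ : ℕ} (F : Fin μ → Sup s) :
    ∃ (f : PCode × List PeriodCode →. Bool) (z : MvPolynomial (Fin s) ℚ), Partrec f ∧ z ≠ 0 ∧
      (∀ x, (∀ X ∈ x.2, PeriodAdmissible X) → ∀ b ∈ f x, (b = true ↔ Vanishes x)) ∧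
      (∀ x, (∀ X ∈ x.2, PeriodAdmissible X) → ¬ Vanishes x → (f x).Dom) ∧
      ∀ A : ℕ,
        (Tendsto (fun T : ℕ => ({θ ∈ Undecided F f A T | ∀ i, HLE T (θ i)}.ncard : ℝ) /
            ({θ : Fin s → ℚ | ∀ i, HLE T (θ i)}.ncard : ℝ)) atTop (𝓝 0)) ∧
        (∀ (R : ℕ) (ε : ℝ), 0 < ε → ∃ T₀ : ℕ, ∀ T : ℕ, T₀ ≤ T → ∀ D : Fin s → ℕ, (∀ i, T ≤ D i ∧ D i ≤ T ^ A) →
          ({θ ∈ Undecided F f A T | InLattice D θ ∧ ∀ i, |(θ i : ℝ)| ≤ R}.ncard : ℝ) ≤ ε * ∏ i, (D i : ℝ)) ∧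
        ∀ S : Set (Fin s → ℝ), IsCompact S → (∀ θ ∈ S, aeval θ z ≠ 0) → ∃ C η : ℝ, 0 < C ∧ 0 < η ∧
          (∀ T : ℕ, 1 ≤ T → ({θ ∈ Undecided F f A T | (∀ i, HLE T (θ i)) ∧ cst θ ∈ S}.ncard : ℝ) ≤
            C * (T : ℝ) ^ (2 * (s : ℝ) - η)) ∧
          ∀ T : ℕ, 2 ≤ T → ∀ D : Fin s → ℕ, (∀ i, T ≤ D i ∧ D i ≤ T ^ A) →
            ({θ ∈ Undecided F f A T | InLattice D θ ∧ cst θ ∈ S}.ncard : ℝ) ≤ C * (T : ℝ) ^ (-η) * ∏ i, (D i : ℝ) := by
  classical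
  obtain ⟨D, z, V, hz, hD, hS⟩ := exists_all F
  obtain ⟨E, hE0, hE⟩ := finite_components z hz
  have hG : ∀ e : {e // e ∈ E}, ∃ (m : ℕ) (R : Fin m → Pz s (Fintype.card (Ix D) + 1)),
      GensOK (Om z e.1) (fun y => V ((Fintype.equivFin (Ix D)).symm y)) R := fun e => exists_gens _ _
  choose m R hR using hG
  have hE' : ∀ θ : Fin s → ℝ, aeval θ z ≠ 0 → ∃ i : {e // e ∈ E}, θ ∈ Om z i.1 := by
    intro θ hθ
    obtain ⟨e, he, h⟩ := hE θ hθ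
    exact ⟨⟨e, he⟩, h⟩
  have hCE : CE fun x : PCode × List PeriodCode => ∃ e : {e // e ∈ E}, GoodX D z e.1 (R e) x :=
    CE.fin_ex fun e => good_ceX D z e.1 (hE0 e.1 e.2) (R e)
  obtain ⟨g₁, hg₁, hd₁⟩ := CE.partrec hCE
  obtain ⟨g₂, hg₂, hd₂⟩ := PN.exists_nv
  obtain ⟨f, hf, hfs, hfd⟩ := merge_bool hg₁ hg₂ hd₁ (fun a => Iff.rfl)
  refine ⟨f, z, hf, hz, ?_, ?_, ?_⟩
  · intro x hx b hb
    rcases hfs x b hb with ⟨h1, ⟨e, he⟩⟩ | ⟨h1, h2⟩
    · exact ⟨fun _ => good_soundX hD (hR e) hx he, fun _ => h1⟩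
    · have h3 := (hd₂ x hx).1 h2
      constructor
      · intro h
        rw [h1] at h
        exact absurd h (by decide)
      · intro h
        exact absurd h h3
  · intro x hx hv
    exact (hfd x).2 (Or.inr ((hd₂ x hx).2 hv))
  · intro A
    have hcomp := fun e : {e // e ∈ E} => complete_one hD hS (hR e) A
    choose δ r V' A₃ hδ han hI hrel using hcomp
    have hgen : ∀ T, 2 ≤ T → ∀ θ ∈ Undecided F f A T, (∀ i, HLE T (θ i)) →
        ∀ i : {e // e ∈ E}, cst θ ∈ Om z i.1 → eval θ (δ i) ≠ 0 →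
          ∃ cc : Fin (r i) → ℤ, cc ≠ 0 ∧ (∀ j, |cc j| ≤ (T : ℤ) ^ A₃ i) ∧
            ∑ j, (cc j : ℝ) * V' i j (cst θ) = 0 := by
      rintro T hT θ ⟨x, hx, hfx⟩ hH i hi hd
      have hng : ¬ (g₂ x).Dom := fun h => hfx ((hfd x).2 (Or.inr h))
      have hv : Vanishes x := by
        by_contra hv
        exact hng ((hd₂ x hx.1).2 hv)
      rcases hrel i T hT θ hH hi hd x hx hv with h | h
      · exact absurd ((hfd x).2 (Or.inl ⟨i, h⟩)) hfx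
      · exact h
    have hB : ∀ T, 2 ≤ T → ∀ θ ∈ {θ ∈ Undecided F f A T | ∀ i, HLE T (θ i)},
        (∀ i, HLE T (θ i)) ∧ ∀ i : {e // e ∈ E}, cst θ ∈ Om z i.1 → eval θ (δ i) ≠ 0 →
          ∃ cc : Fin (r i) → ℤ, cc ≠ 0 ∧ (∀ j, |cc j| ≤ (T : ℤ) ^ A₃ i) ∧
            ∑ j, (cc j : ℝ) * V' i j (cst θ) = 0 := by
      rintro T hT θ ⟨hθ, hH⟩
      exact ⟨hH, fun i hi hd => hgen T hT θ hθ hH i hi hd⟩
    -- lattices, for a compact set
    have hlat : ∀ S : Set (Fin s → ℝ), IsCompact S → (∀ θ ∈ S, aeval θ z ≠ 0) → ∃ C η : ℝ, 0 < C ∧ 0 < η ∧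
        ∀ T : ℕ, 2 ≤ T → ∀ D : Fin s → ℕ, (∀ i, T ≤ D i ∧ D i ≤ T ^ A) →
          ({θ ∈ Undecided F f A T | InLattice D θ ∧ cst θ ∈ S}.ncard : ℝ) ≤ C * (T : ℝ) ^ (-η) * ∏ i, (D i : ℝ) := by
      intro S hSc hSz
      obtain ⟨R₁, hR₁⟩ := hSc.isBounded.exists_norm_le
      obtain ⟨R₀, hR₀⟩ := exists_nat_ge R₁
      obtain ⟨b, hb⟩ : ∃ b : ℕ, R₀ ≤ 2 ^ b := ⟨R₀, Nat.lt_two_pow_self.le⟩
      obtain ⟨C, η, hC, hη, H⟩ := lat_rate hz hE' hδ (fun i => (A + b + 1) * A₃ i) han hI hSc hSz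
      refine ⟨C, η, hC, hη, fun T hT D hD => H T (by omega) D (fun i => (hD i).1) _ ?_⟩
      rintro θ ⟨hθ, hD', hθS⟩
      refine ⟨hD', hθS, fun i hi hd => ?_⟩
      have hTT : T ≤ T ^ (A + b + 1) := Nat.le_self_pow (by omega) T
      have hT1 : 1 ≤ T := by omega
      have hθ' : θ ∈ Undecided F f A (T ^ (A + b + 1)) := by
        obtain ⟨x, hx, hfx⟩ := hθ
        exact ⟨x, InN.mono (hT1.trans hTT) hTT hx, hfx⟩
      have hH : ∀ l, HLE (T ^ (A + b + 1)) (θ l) := by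
        intro l
        have h1 := l7_hle (A := A) (b := b) hT hb (hT1.trans (hD l).1) (hD l).2 (hD' l)
          (((norm_le_pi_norm (cst θ) l).trans (hR₁ _ hθS)).trans hR₀)
        have h2 : T ^ (A + b) ≤ T ^ (A + b + 1) := Nat.pow_le_pow_right hT1 (by omega)
        exact ⟨h1.1.trans h2, h1.2.trans h2⟩
      obtain ⟨cc, h1, h2, h3⟩ := hgen (T ^ (A + b + 1)) (hT.trans hTT) θ hθ' hH i hi hd
      refine ⟨cc, h1, fun j => (h2 j).trans (le_of_eq ?_), h3⟩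
      push_cast
      rw [← pow_mul]
    refine ⟨?_, ?_, ?_⟩
    · rcases Nat.eq_zero_or_pos s with hs | hs
      · subst hs
        have h := fz_zero hz hE' hδ A₃ hI _ hB
        refine tendsto_const_nhds.congr' ?_
        filter_upwards [Filter.eventually_ge_atTop 2] with T hT
        rw [h T hT]
        simp
      · exact fz_pos hs hz hE' hδ A₃ han hI _ hB
    · intro R₀ ε hε
      obtain ⟨ε', hε', T₁, H₁⟩ := lat_near hz (R := R₀ + 1) (by omega) (half_pos hε)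
      have hcont : Continuous fun θ : Fin s → ℝ => (aeval θ z : ℝ) := by
        have h : (fun θ : Fin s → ℝ => (aeval θ z : ℝ)) = fun θ => eval θ (map (algebraMap ℚ ℝ) z) := by
          funext θ
          rw [eval_map, aeval_def]
        rw [h]
        exact MvPolynomial.continuous_eval _
      obtain ⟨S, hSdef⟩ : ∃ S : Set (Fin s → ℝ), S = {θ : Fin s → ℝ | (∀ i, |θ i| ≤ (R₀ : ℝ)) ∧ ε' ≤ |(aeval θ z : ℝ)|} := ⟨_, rfl⟩
      have hSc : IsCompact S := by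
        rw [hSdef]
        apply Metric.isCompact_of_isClosed_isBounded
        · have hc1 : IsClosed {θ : Fin s → ℝ | ∀ i, |θ i| ≤ (R₀ : ℝ)} := by
            have h : {θ : Fin s → ℝ | ∀ i, |θ i| ≤ (R₀ : ℝ)} = ⋂ i, {θ : Fin s → ℝ | |θ i| ≤ (R₀ : ℝ)} := by
              ext θ
              simp
            rw [h]
            exact isClosed_iInter fun i => isClosed_le (by fun_prop) continuous_const
          have hc2 : IsClosed {θ : Fin s → ℝ | ε' ≤ |(aeval θ z : ℝ)|} :=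
            isClosed_le continuous_const (continuous_abs.comp hcont)
          exact hc1.inter hc2
        · apply (Metric.isBounded_closedBall (x := (0 : Fin s → ℝ)) (r := R₀)).subset
          rintro θ ⟨h1, -⟩
          rw [Metric.mem_closedBall, dist_zero_right, pi_norm_le_iff_of_nonneg (Nat.cast_nonneg _)]
          intro i
          rw [Real.norm_eq_abs]
          exact h1 i
      have hSz : ∀ θ ∈ S, aeval θ z ≠ 0 := by
        rw [hSdef]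
        rintro θ ⟨-, h⟩ h0
        rw [h0, abs_zero] at h
        linarith
      obtain ⟨C, η, hC, hη, H₂⟩ := hlat S hSc hSz
      have hlim : Tendsto (fun T : ℕ => C * (T : ℝ) ^ (-η)) atTop (𝓝 0) := by
        have h0 := ((tendsto_rpow_neg_atTop hη).comp tendsto_natCast_atTop_atTop).const_mul C
        rw [mul_zero] at h0
        exact h0
      obtain ⟨T₂, hT₂⟩ := Filter.eventually_atTop.1 (hlim.eventually_le_const (half_pos hε))
      refine ⟨max (max T₁ T₂) 2, fun T hT D hD => ?_⟩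
      have g1 : T₁ ≤ T := le_trans (le_trans (le_max_left _ _) (le_max_left _ _)) hT
      have g2 : T₂ ≤ T := le_trans (le_trans (le_max_right _ _) (le_max_left _ _)) hT
      have g3 : 2 ≤ T := le_trans (le_max_right _ _) hT
      have hP : 0 ≤ ∏ i, (D i : ℝ) := Finset.prod_nonneg fun i _ => Nat.cast_nonneg _
      have k1 := H₁ T g1 D fun i => (hD i).1
      have k2 := H₂ T g3 D hD
      have k3 := hT₂ T g2
      have hT1 : 1 ≤ T := by omega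
      have hfinD : ∀ R' : ℝ, {θ : Fin s → ℚ | InLattice D θ ∧ ∀ i, |(θ i : ℝ)| ≤ R'}.Finite := by
        intro R'
        obtain ⟨Q, h, hh, -, hcov⟩ := coset_cover hT1 D fun i => (hD i).1
        refine (Q.finite_toSet.biUnion fun a _ => finite_box (a := a) hh R').subset ?_
        rintro θ ⟨h1, h2⟩
        obtain ⟨a, haQ, ha⟩ := hcov θ h1
        exact Set.mem_iUnion₂.2 ⟨a, haQ, ha, h2⟩
      have hsub : {θ ∈ Undecided F f A T | InLattice D θ ∧ ∀ i, |(θ i : ℝ)| ≤ R₀} ⊆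
          {θ : Fin s → ℚ | InLattice D θ ∧ (∀ i, |(θ i : ℝ)| ≤ ((R₀ + 1 : ℕ) : ℝ)) ∧ |aeval (cst θ) z| < ε'} ∪
            {θ ∈ Undecided F f A T | InLattice D θ ∧ cst θ ∈ S} := by
        rintro θ ⟨h1, h2, h3⟩
        by_cases h4 : |(aeval (cst θ) z : ℝ)| < ε'
        · left
          refine ⟨h2, fun i => (h3 i).trans ?_, h4⟩
          push_cast
          linarith
        · right
          refine ⟨h1, h2, ?_⟩
          rw [hSdef]
          exact ⟨h3, not_lt.1 h4⟩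
      have hfin : ({θ : Fin s → ℚ | InLattice D θ ∧ (∀ i, |(θ i : ℝ)| ≤ ((R₀ + 1 : ℕ) : ℝ)) ∧ |aeval (cst θ) z| < ε'} ∪
            {θ ∈ Undecided F f A T | InLattice D θ ∧ cst θ ∈ S}).Finite := by
        refine Set.Finite.union ((hfinD ((R₀ + 1 : ℕ) : ℝ)).subset ?_) ((hfinD R₀).subset ?_)
        · rintro θ ⟨h1, h2, -⟩
          exact ⟨h1, h2⟩
        · rintro θ ⟨-, h1, h2⟩
          rw [hSdef] at h2
          exact ⟨h1, h2.1⟩
      have hc : ({θ ∈ Undecided F f A T | InLattice D θ ∧ ∀ i, |(θ i : ℝ)| ≤ R₀}.ncard : ℝ) ≤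
          ({θ : Fin s → ℚ | InLattice D θ ∧ (∀ i, |(θ i : ℝ)| ≤ ((R₀ + 1 : ℕ) : ℝ)) ∧ |aeval (cst θ) z| < ε'}.ncard : ℝ) +
            ({θ ∈ Undecided F f A T | InLattice D θ ∧ cst θ ∈ S}.ncard : ℝ) := by
        exact_mod_cast (Set.ncard_le_ncard hsub hfin).trans (Set.ncard_union_le _ _)
      calc _ ≤ _ := hc
        _ ≤ ε / 2 * ∏ i, (D i : ℝ) + C * (T : ℝ) ^ (-η) * ∏ i, (D i : ℝ) := add_le_add k1 k2
        _ ≤ ε / 2 * ∏ i, (D i : ℝ) + ε / 2 * ∏ i, (D i : ℝ) :=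
            add_le_add le_rfl (mul_le_mul_of_nonneg_right k3 hP)
        _ = ε * ∏ i, (D i : ℝ) := by ring
    · intro S hSc hSz
      obtain ⟨C₁, η₁, hC₁, hη₁, H₁⟩ := fz_rate hz hE' hδ A₃ han hI _ hB hSc hSz
      obtain ⟨C₂, η₂, hC₂, hη₂, H₂⟩ := hlat S hSc hSz
      refine ⟨C₁ + C₂, min η₁ η₂, by positivity, lt_min hη₁ hη₂, fun T hT => ?_, fun T hT D hD => ?_⟩
      · have hT1 : (1 : ℝ) ≤ T := by exact_mod_cast hT
        have e : {θ ∈ Undecided F f A T | (∀ i, HLE T (θ i)) ∧ cst θ ∈ S} =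
            {θ ∈ {θ ∈ Undecided F f A T | ∀ i, HLE T (θ i)} | cst θ ∈ S} := by
          ext θ
          constructor
          · rintro ⟨h1, h2, h3⟩
            exact ⟨⟨h1, h2⟩, h3⟩
          · rintro ⟨⟨h1, h2⟩, h3⟩
            exact ⟨h1, h2, h3⟩
        rw [e]
        refine (H₁ T hT).trans ?_
        have hle : (T : ℝ) ^ (2 * (s : ℝ) - η₁) ≤ (T : ℝ) ^ (2 * (s : ℝ) - min η₁ η₂) :=
          Real.rpow_le_rpow_of_exponent_le hT1 (sub_le_sub_left (min_le_left _ _) _)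
        exact mul_le_mul (by linarith) hle (Real.rpow_nonneg (by linarith) _) (by linarith)
      · have hT1 : (1 : ℝ) ≤ T := by
          have : 1 ≤ T := by omega
          exact_mod_cast this
        refine (H₂ T hT D hD).trans ?_
        have hP : 0 ≤ ∏ i, (D i : ℝ) := Finset.prod_nonneg fun i _ => Nat.cast_nonneg _
        have hle : (T : ℝ) ^ (-η₂) ≤ (T : ℝ) ^ (-min η₁ η₂) :=
          Real.rpow_le_rpow_of_exponent_le hT1 (neg_le_neg (min_le_right _ _))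
        refine mul_le_mul_of_nonneg_right ?_ hP
        exact mul_le_mul (by linarith) hle (Real.rpow_nonneg (by linarith) _) (by linarith)

end Pool.Agent.Lib.MP_bbe012_lc.PL
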